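import Mathlib
import Pool.Agent.Y514.SC.Coef

set_option autoImplicit false

namespace Pool.Agent.Y514.SC

open Finset
open scoped Classical

section
variable {ι κ : Type*}

/-- the rectangle spanned by a set of cells -/
noncomputable def box (I : Finset (ι × κ)) : Finset (ι × κ) := (I.image Prod.fst) ×ˢ (I.image Prod.snd)

noncomputable def star (I : Finset (ι × κ)) : Finset (ι × κ) := box I \ I

theorem subset_box (I : Finset (ι × κ)) : I ⊆ box I := by
  intro x hx
  rw [box, Finset.mem_product]
  exact ⟨Finset.mem_image_of_mem _ hx, Finset.mem_image_of_mem _ hx⟩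

theorem box_pair (p q : ι × κ) : box ({p, q} : Finset (ι × κ)) = {p, q, (p.1, q.2), (q.1, p.2)} := by
  rw [box, Finset.image_insert, Finset.image_insert, Finset.image_singleton,
    Finset.image_singleton]
  ext ⟨a, b⟩
  simp only [Finset.mem_product, Finset.mem_insert, Finset.mem_singleton, Prod.ext_iff]
  tauto

theorem star_pair {p q : ι × κ} (h1 : p.1 ≠ q.1) (h2 : p.2 ≠ q.2) :
    star ({p, q} : Finset (ι × κ)) = {(p.1, q.2), (q.1, p.2)} := by
  rw [star, box_pair]
  ext ⟨a, b⟩
  simp only [Finset.mem_sdiff, Finset.mem_insert, Finset.mem_singleton, Prod.ext_iff]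
  constructor
  · rintro ⟨h | h | h | h, h'⟩
    · exact absurd (Or.inl h) h'
    · exact absurd (Or.inr h) h'
    · exact Or.inl h
    · exact Or.inr h
  · rintro (⟨rfl, rfl⟩ | ⟨rfl, rfl⟩)
    · refine ⟨by simp, ?_⟩
      rintro (⟨_, h⟩ | ⟨h, _⟩)
      · exact h2 h.symm
      · exact h1 h
    · refine ⟨by simp, ?_⟩
      rintro (⟨h, _⟩ | ⟨_, h⟩)
      · exact h1 h.symm
      · exact h2 h

theorem star_disjP {I : Finset (ι × κ)} (h : disjP I) : disjP (star I) := by
  obtain ⟨p, q, h1, h2, rfl⟩ := h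
  exact ⟨(p.1, q.2), (q.1, p.2), h1, h2.symm, star_pair h1 h2⟩

theorem box_star {I : Finset (ι × κ)} (h : disjP I) : box (star I) = box I := by
  obtain ⟨p, q, h1, h2, rfl⟩ := h
  rw [star_pair h1 h2, box_pair, box_pair]
  ext x
  simp only [Finset.mem_insert, Finset.mem_singleton, Prod.mk.eta]
  tauto

theorem star_star {I : Finset (ι × κ)} (h : disjP I) : star (star I) = I := by
  rw [star, box_star h, star, Finset.sdiff_sdiff_eq_self (subset_box I)]

theorem box_card {I : Finset (ι × κ)} (h : disjP I) : (box I).card = 4 := by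
  have h1 : (box I).card = I.card + (star I).card := by
    rw [star, Finset.card_sdiff_of_subset (subset_box I)]
    have := Finset.card_le_card (subset_box I)
    omega
  rw [h1, h.card, (star_disjP h).card]

variable [Fintype ι] [Fintype κ]

theorem box_ineq {z : ι × κ → ℝ} (hz : ∀ c, 0 ≤ z c) :
    ∑ J : Finset (ι × κ), (if J.card = 5 ∧ hasBox J then wt z J else 0)
      ≤ ∑ I : Finset (ι × κ), (if disjP I then wt z I ^ 2 * ∑ r ∈ Iᶜ, z r else 0) := by
  set S : Finset (Finset (ι × κ) × (ι × κ)) :=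
    Finset.univ.filter (fun x => disjP x.1 ∧ x.2 ∉ box x.1) with hS
  have memS : ∀ x, x ∈ S ↔ disjP x.1 ∧ x.2 ∉ box x.1 := by intro x; simp [hS]
  have h1 : (Finset.univ.filter (fun J : Finset (ι × κ) => J.card = 5 ∧ hasBox J))
      ⊆ S.image (fun x => insert x.2 (box x.1)) := by
    intro J hJ
    obtain ⟨hJ5, p, q, hp, hq, hpJ, hqJ, ha, hb⟩ := (Finset.mem_filter.mp hJ).2
    have hd : disjP ({p, q} : Finset (ι × κ)) := ⟨p, q, hp, hq, rfl⟩
    have hsub : box ({p, q} : Finset (ι × κ)) ⊆ J := by
      rw [box_pair]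
      intro x hx
      simp only [Finset.mem_insert, Finset.mem_singleton] at hx
      rcases hx with rfl | rfl | rfl | rfl
      · exact hpJ
      · exact hqJ
      · exact ha
      · exact hb
    have hc : (J \ box ({p, q} : Finset (ι × κ))).card = 1 := by
      rw [Finset.card_sdiff_of_subset hsub, hJ5, box_card hd]
    obtain ⟨r, hr⟩ := Finset.card_eq_one.mp hc
    have hrJ : r ∈ J ∧ r ∉ box ({p, q} : Finset (ι × κ)) := by
      have : r ∈ J \ box ({p, q} : Finset (ι × κ)) := by rw [hr]; simp
      exact Finset.mem_sdiff.mp this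
    rw [Finset.mem_image]
    refine ⟨({p, q}, r), (memS _).mpr ⟨hd, hrJ.2⟩, ?_⟩
    show insert r (box ({p, q} : Finset (ι × κ))) = J
    rw [← Finset.union_sdiff_of_subset hsub, hr, Finset.union_comm]
    rfl
  have hstep1 : ∑ J : Finset (ι × κ), (if J.card = 5 ∧ hasBox J then wt z J else 0)
      ≤ ∑ x ∈ S, wt z (insert x.2 (box x.1)) := by
    rw [← Finset.sum_filter]
    calc ∑ J ∈ Finset.univ.filter (fun J : Finset (ι × κ) => J.card = 5 ∧ hasBox J), wt z J
        ≤ ∑ J ∈ S.image (fun x => insert x.2 (box x.1)), wt z J :=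
          Finset.sum_le_sum_of_subset_of_nonneg h1 (fun J _ _ => wt_nonneg hz J)
      _ ≤ ∑ x ∈ S, wt z (insert x.2 (box x.1)) := by
          rw [← Finset.sum_fiberwise_of_maps_to (s := S)
            (t := S.image (fun x => insert x.2 (box x.1)))
            (g := fun x => insert x.2 (box x.1))
            (fun x hx => Finset.mem_image_of_mem _ hx)
            (fun x => wt z (insert x.2 (box x.1)))]
          refine Finset.sum_le_sum fun J hJ => ?_
          obtain ⟨x, hx, hxJ⟩ := Finset.mem_image.mp hJ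
          have hmem : x ∈ S.filter (fun i => insert i.2 (box i.1) = J) :=
            Finset.mem_filter.mpr ⟨hx, hxJ⟩
          refine le_trans ?_ (Finset.single_le_sum
            (f := fun x : Finset (ι × κ) × (ι × κ) => wt z (insert x.2 (box x.1)))
            (fun y _ => wt_nonneg hz _) hmem)
          show wt z J ≤ wt z (insert x.2 (box x.1))
          rw [hxJ]
  have hstep2 : ∑ x ∈ S, wt z (insert x.2 (box x.1))
      ≤ ∑ x ∈ S, z x.2 * ((wt z x.1 ^ 2 + wt z (star x.1) ^ 2) / 2) := by
    refine Finset.sum_le_sum fun x hx => ?_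
    obtain ⟨hd, hn⟩ := (memS x).mp hx
    have e1 : wt z (insert x.2 (box x.1)) = z x.2 * (wt z (star x.1) * wt z x.1) := by
      unfold wt
      rw [Finset.prod_insert hn, star, Finset.prod_sdiff (subset_box x.1)]
    rw [e1]
    refine mul_le_mul_of_nonneg_left ?_ (hz _)
    nlinarith [sq_nonneg (wt z (star x.1) - wt z x.1)]
  have hinv : ∑ x ∈ S, z x.2 * wt z (star x.1) ^ 2 = ∑ x ∈ S, z x.2 * wt z x.1 ^ 2 := by
    refine Finset.sum_nbij' (fun x => (star x.1, x.2)) (fun x => (star x.1, x.2)) ?_ ?_ ?_ ?_ ?_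
    · intro x hx
      obtain ⟨hd, hn⟩ := (memS x).mp hx
      exact (memS _).mpr ⟨star_disjP hd, by rw [box_star hd]; exact hn⟩
    · intro x hx
      obtain ⟨hd, hn⟩ := (memS x).mp hx
      exact (memS _).mpr ⟨star_disjP hd, by rw [box_star hd]; exact hn⟩
    · intro x hx
      obtain ⟨hd, hn⟩ := (memS x).mp hx
      exact Prod.ext (star_star hd) rfl
    · intro x hx
      obtain ⟨hd, hn⟩ := (memS x).mp hx
      exact Prod.ext (star_star hd) rfl
    · intro x hx
      rfl
  have hstep3 : ∑ x ∈ S, z x.2 * ((wt z x.1 ^ 2 + wt z (star x.1) ^ 2) / 2)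
      = ∑ x ∈ S, z x.2 * wt z x.1 ^ 2 := by
    have : ∀ x ∈ S, z x.2 * ((wt z x.1 ^ 2 + wt z (star x.1) ^ 2) / 2)
        = (1 / 2) * (z x.2 * wt z x.1 ^ 2) + (1 / 2) * (z x.2 * wt z (star x.1) ^ 2) := by
      intro x _; ring
    rw [Finset.sum_congr rfl this, Finset.sum_add_distrib, ← Finset.mul_sum, ← Finset.mul_sum, hinv]
    ring
  have hstep4 : ∑ x ∈ S, z x.2 * wt z x.1 ^ 2
      ≤ ∑ I : Finset (ι × κ), (if disjP I then wt z I ^ 2 * ∑ r ∈ Iᶜ, z r else 0) := by
    have e1 : ∑ I : Finset (ι × κ), (if disjP I then wt z I ^ 2 * ∑ r ∈ Iᶜ, z r else 0)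
        = ∑ x ∈ (Finset.univ ×ˢ Finset.univ).filter
            (fun x : Finset (ι × κ) × (ι × κ) => disjP x.1 ∧ x.2 ∉ x.1), z x.2 * wt z x.1 ^ 2 := by
      rw [Finset.sum_filter, Finset.sum_product]
      refine Finset.sum_congr rfl fun I _ => ?_
      by_cases hd : disjP I
      · rw [if_pos hd, Finset.mul_sum, ← Finset.sum_filter_add_sum_filter_not Finset.univ
          (fun r => r ∈ I)]
        have z1 : ∑ r ∈ Finset.univ.filter (fun r => r ∈ I),
            (if disjP I ∧ r ∉ I then z r * wt z I ^ 2 else 0) = 0 := by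
          refine Finset.sum_eq_zero fun r hr => ?_
          rw [if_neg]; rintro ⟨_, h⟩; exact h (Finset.mem_filter.mp hr).2
        rw [z1, zero_add]
        have z2 : Finset.univ.filter (fun r => r ∉ I) = Iᶜ := by ext r; simp
        rw [z2]
        refine Finset.sum_congr rfl fun r hr => ?_
        rw [if_pos ⟨hd, by simpa using hr⟩]; ring
      · rw [if_neg hd]
        symm
        refine Finset.sum_eq_zero fun r _ => ?_
        rw [if_neg]; rintro ⟨h, _⟩; exact hd h
    rw [e1]
    refine Finset.sum_le_sum_of_subset_of_nonneg ?_ ?_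
    · intro x hx
      obtain ⟨hd, hn⟩ := (memS x).mp hx
      simp only [Finset.mem_filter, Finset.mem_product, Finset.mem_univ, true_and]
      exact ⟨hd, fun h => hn (subset_box _ h)⟩
    · intro x _ _
      exact mul_nonneg (hz _) (sq_nonneg _)
  linarith

theorem high_deg {z : ι × κ → ℝ} (hz : ∀ c, 0 ≤ z c) :
    0 ≤ ∑ U : Finset (ι × κ), ∑ V : Finset (ι × κ),
      (if 5 ≤ U.card + V.card then ff U V else 0) * (wt z U * wt z V) := by
  rw [regroup_wt z (fun U V => if 5 ≤ U.card + V.card then ff U V else 0)]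
  have hin : ∀ I : Finset (ι × κ), ∀ J ∈ (Iᶜ).powerset,
      (∑ L ∈ J.powerset, (if 5 ≤ (I ∪ (J \ L)).card + (I ∪ L).card
        then ff (I ∪ (J \ L)) (I ∪ L) else 0))
      = if 5 ≤ 2 * I.card + J.card then cc I J else 0 := by
    intro I J hJ
    have hIJ : Disjoint I J := by
      rw [Finset.disjoint_left]; intro x hx hx'
      have := Finset.mem_powerset.mp hJ hx'
      simp at this; exact this hx
    have hc : ∀ L ∈ J.powerset, (I ∪ (J \ L)).card + (I ∪ L).card = 2 * I.card + J.card := by
      intro L hL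
      have hLJ := Finset.mem_powerset.mp hL
      rw [Finset.card_union_of_disjoint (Finset.disjoint_of_subset_right Finset.sdiff_subset hIJ),
        Finset.card_union_of_disjoint (Finset.disjoint_of_subset_right hLJ hIJ),
        Finset.card_sdiff_of_subset hLJ]
      have := Finset.card_le_card hLJ
      omega
    rw [Finset.sum_congr rfl (fun L hL => by rw [hc L hL])]
    by_cases h5 : 5 ≤ 2 * I.card + J.card
    · simp only [if_pos h5]; rfl
    · simp only [if_neg h5, Finset.sum_const_zero]
  rw [Finset.sum_congr rfl (fun I _ => Finset.sum_congr rfl (fun J hJ => by rw [hin I J hJ]))]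
  -- lower bound for each `I`
  have hI : ∀ I : Finset (ι × κ), I ≠ ∅ →
      (if disjP I then wt z I ^ 2 * ∑ r ∈ Iᶜ, z r else 0)
      ≤ ∑ J ∈ (Iᶜ).powerset, wt z I ^ 2 * wt z J *
          (if 5 ≤ 2 * I.card + J.card then cc I J else 0) := by
    intro I hI0
    have hIne := Finset.nonempty_iff_ne_empty.mpr hI0
    have hdis : ∀ J ∈ (Iᶜ).powerset, Disjoint I J := by
      intro J hJ
      rw [Finset.disjoint_left]; intro x hx hx'
      have := Finset.mem_powerset.mp hJ hx'
      simp at this; exact this hx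
    have hnn : ∀ J ∈ (Iᶜ).powerset, 0 ≤ wt z I ^ 2 * wt z J *
          (if 5 ≤ 2 * I.card + J.card then cc I J else 0) := by
      intro J hJ
      refine mul_nonneg (mul_nonneg (sq_nonneg _) (wt_nonneg hz _)) ?_
      split_ifs
      · exact cc_nonneg hIne (hdis J hJ)
      · exact le_refl _
    by_cases hd : disjP I
    · rw [if_pos hd]
      have hsub : (Iᶜ).image (fun r => ({r} : Finset (ι × κ))) ⊆ (Iᶜ).powerset := by
        intro J hJ
        obtain ⟨r, hr, rfl⟩ := Finset.mem_image.mp hJ
        simpa using hr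
      refine le_trans ?_ (Finset.sum_le_sum_of_subset_of_nonneg hsub (fun J hJ _ => hnn J hJ))
      rw [Finset.sum_image (fun a _ b _ h => Finset.singleton_injective h), Finset.mul_sum]
      refine Finset.sum_le_sum fun r hr => ?_
      have h5 : 5 ≤ 2 * I.card + ({r} : Finset (ι × κ)).card := by
        rw [hd.card, Finset.card_singleton]
      rw [if_pos h5]
      have hw : wt z {r} = z r := by simp [wt]
      rw [hw]
      have hc := cc_disjP hd (J := {r}) (by
        rw [Finset.disjoint_singleton_right]; simpa using hr)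
      have h0 : 0 ≤ wt z I ^ 2 * z r := mul_nonneg (sq_nonneg _) (hz r)
      nlinarith
    · rw [if_neg hd]
      exact Finset.sum_nonneg hnn
  have h0 : -(∑ J : Finset (ι × κ), (if J.card = 5 ∧ hasBox J then wt z J else 0))
      ≤ ∑ J ∈ ((∅ : Finset (ι × κ))ᶜ).powerset, wt z ∅ ^ 2 * wt z J *
          (if 5 ≤ 2 * (∅ : Finset (ι × κ)).card + J.card then cc ∅ J else 0) := by
    rw [Finset.compl_empty, Finset.powerset_univ, ← Finset.sum_neg_distrib]
    refine Finset.sum_le_sum fun J _ => ?_
    have hw : wt z (∅ : Finset (ι × κ)) = 1 := by simp [wt]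
    rw [hw, Finset.card_empty]
    by_cases h5 : 5 ≤ J.card
    · rw [if_pos (show 5 ≤ 2 * 0 + J.card by omega)]
      have hc := cc_empty h5
      have hwJ := wt_nonneg hz J
      by_cases hb : J.card = 5 ∧ hasBox J
      · rw [if_pos hb] at hc ⊢
        nlinarith
      · rw [if_neg hb] at hc ⊢
        have : 0 ≤ cc ∅ J := by linarith
        have := mul_nonneg hwJ this
        linarith
    · rw [if_neg (show ¬ 5 ≤ 2 * 0 + J.card by omega), if_neg (fun h => h5 (by omega))]
      simp
  have hd0 : ¬ disjP (∅ : Finset (ι × κ)) := fun h => by have := h.card; simp at this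
  have hbox := box_ineq hz
  rw [← Finset.add_sum_erase Finset.univ _ (Finset.mem_univ (∅ : Finset (ι × κ)))]
  rw [← Finset.add_sum_erase Finset.univ
    (fun I : Finset (ι × κ) => if disjP I then wt z I ^ 2 * ∑ r ∈ Iᶜ, z r else 0)
    (Finset.mem_univ (∅ : Finset (ι × κ)))] at hbox
  simp only [if_neg hd0, zero_add] at hbox
  have hrest := Finset.sum_le_sum (s := Finset.univ.erase (∅ : Finset (ι × κ)))
    (fun I hI' => hI I (Finset.ne_of_mem_erase hI'))
  linarith

end

end Pool.Agent.Y514.SC
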