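import Mathlib
import Pool.Agent.Y514.SC.Coef

set_option autoImplicit false

namespace Pool.Agent.Y514.SC

open Finset

section esymm
variable {γ : Type*} [DecidableEq γ]

omit [DecidableEq γ] in
theorem E1_eq (z : γ → ℝ) (s : Finset γ) :
    ∑ U ∈ powersetCard 1 s, ∏ c ∈ U, z c = ∑ c ∈ s, z c := by
  rw [Finset.powersetCard_one, Finset.sum_map]
  simp

theorem E_insert (z : γ → ℝ) (s : Finset γ) (x : γ) (hx : x ∉ s) (k : ℕ) :
    ∑ U ∈ powersetCard (k + 1) (insert x s), ∏ c ∈ U, z c
      = ∑ U ∈ powersetCard (k + 1) s, ∏ c ∈ U, z c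
        + z x * ∑ U ∈ powersetCard k s, ∏ c ∈ U, z c := by
  rw [Finset.powersetCard_succ_insert hx, Finset.sum_union]
  · congr 1
    rw [Finset.sum_image, Finset.mul_sum]
    · refine Finset.sum_congr rfl fun U hU => ?_
      have : x ∉ U := fun h => hx ((Finset.mem_powersetCard.mp hU).1 h)
      rw [Finset.prod_insert this]
    · intro U hU V hV h
      have hU' : x ∉ U := fun h => hx ((Finset.mem_powersetCard.mp hU).1 h)
      have hV' : x ∉ V := fun h => hx ((Finset.mem_powersetCard.mp hV).1 h)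
      have h' : insert x U = insert x V := h
      rw [← Finset.erase_insert hU', ← Finset.erase_insert hV', h']
  · rw [Finset.disjoint_left]
    intro U hU hU'
    obtain ⟨V, _, rfl⟩ := Finset.mem_image.mp hU'
    exact hx ((Finset.mem_powersetCard.mp hU).1 (Finset.mem_insert_self _ _))

theorem E2_eq (z : γ → ℝ) (s : Finset γ) :
    2 * ∑ U ∈ powersetCard 2 s, ∏ c ∈ U, z c = (∑ c ∈ s, z c) ^ 2 - ∑ c ∈ s, z c ^ 2 := by
  induction s using Finset.induction_on with
  | empty => rw [Finset.powersetCard_eq_empty.mpr (by simp)]; simp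
  | insert x s hx ih =>
    rw [E_insert z s x hx 1, E1_eq, Finset.sum_insert hx, Finset.sum_insert hx]
    linear_combination ih

theorem E3_eq (z : γ → ℝ) (s : Finset γ) :
    6 * ∑ U ∈ powersetCard 3 s, ∏ c ∈ U, z c
      = (∑ c ∈ s, z c) ^ 3 - 3 * (∑ c ∈ s, z c) * ∑ c ∈ s, z c ^ 2 + 2 * ∑ c ∈ s, z c ^ 3 := by
  induction s using Finset.induction_on with
  | empty => rw [Finset.powersetCard_eq_empty.mpr (by simp)]; simp
  | insert x s hx ih =>
    have h2 := E2_eq z s
    rw [E_insert z s x hx 2, Finset.sum_insert hx, Finset.sum_insert hx, Finset.sum_insert hx]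
    linear_combination ih + 3 * z x * h2

end esymm

open scoped Classical

section
variable {ι κ : Type*} [Fintype ι] [Fintype κ]

theorem row_sum_eq (g : Finset (ι × κ) → ℝ) (k : ℕ) (hk : 1 ≤ k) :
    ∑ U : Finset (ι × κ), (if U.card = k ∧ rowC U then g U else 0)
      = ∑ i : ι, ∑ U ∈ powersetCard k (Finset.univ.filter (fun c : ι × κ => c.1 = i)), g U := by
  rw [← Finset.sum_filter]
  have : (Finset.univ.filter (fun U : Finset (ι × κ) => U.card = k ∧ rowC U))
      = Finset.univ.biUnion
        (fun i : ι => powersetCard k (Finset.univ.filter (fun c : ι × κ => c.1 = i))) := by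
    ext U
    simp only [Finset.mem_filter, Finset.mem_univ, true_and, Finset.mem_biUnion,
      Finset.mem_powersetCard]
    constructor
    · rintro ⟨h1, h2⟩
      obtain ⟨c, hc⟩ := Finset.card_pos.mp (show 0 < U.card by omega)
      refine ⟨c.1, ?_, h1⟩
      intro d hd
      rw [Finset.mem_filter]
      exact ⟨Finset.mem_univ _, h2 d hd c hc⟩
    · rintro ⟨i, h1, h2⟩
      refine ⟨h2, ?_⟩
      intro c hc d hd
      rw [(Finset.mem_filter.mp (h1 hc)).2, (Finset.mem_filter.mp (h1 hd)).2]
  rw [this, Finset.sum_biUnion]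
  intro i _ j _ hij
  rw [Function.onFun, Finset.disjoint_left]
  intro U hU hU'
  rw [Finset.mem_powersetCard] at hU hU'
  obtain ⟨c, hc⟩ := Finset.card_pos.mp (show 0 < U.card by omega)
  exact hij (((Finset.mem_filter.mp (hU.1 hc)).2).symm.trans (Finset.mem_filter.mp (hU'.1 hc)).2)

theorem col_sum_eq (g : Finset (ι × κ) → ℝ) (k : ℕ) (hk : 1 ≤ k) :
    ∑ U : Finset (ι × κ), (if U.card = k ∧ colC U then g U else 0)
      = ∑ j : κ, ∑ U ∈ powersetCard k (Finset.univ.filter (fun c : ι × κ => c.2 = j)), g U := by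
  rw [← Finset.sum_filter]
  have : (Finset.univ.filter (fun U : Finset (ι × κ) => U.card = k ∧ colC U))
      = Finset.univ.biUnion
        (fun j : κ => powersetCard k (Finset.univ.filter (fun c : ι × κ => c.2 = j))) := by
    ext U
    simp only [Finset.mem_filter, Finset.mem_univ, true_and, Finset.mem_biUnion,
      Finset.mem_powersetCard]
    constructor
    · rintro ⟨h1, h2⟩
      obtain ⟨c, hc⟩ := Finset.card_pos.mp (show 0 < U.card by omega)
      refine ⟨c.2, ?_, h1⟩
      intro d hd
      rw [Finset.mem_filter]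
      exact ⟨Finset.mem_univ _, h2 d hd c hc⟩
    · rintro ⟨i, h1, h2⟩
      refine ⟨h2, ?_⟩
      intro c hc d hd
      rw [(Finset.mem_filter.mp (h1 hc)).2, (Finset.mem_filter.mp (h1 hd)).2]
  rw [this, Finset.sum_biUnion]
  intro i _ j _ hij
  rw [Function.onFun, Finset.disjoint_left]
  intro U hU hU'
  rw [Finset.mem_powersetCard] at hU hU'
  obtain ⟨c, hc⟩ := Finset.card_pos.mp (show 0 < U.card by omega)
  exact hij (((Finset.mem_filter.mp (hU.1 hc)).2).symm.trans (Finset.mem_filter.mp (hU'.1 hc)).2)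

theorem sum_row (h : ι × κ → ℝ) (i : ι) :
    ∑ c ∈ Finset.univ.filter (fun c : ι × κ => c.1 = i), h c = ∑ j : κ, h (i, j) := by
  rw [Finset.sum_filter, Fintype.sum_prod_type, Finset.sum_eq_single i]
  · simp
  · intro b _ hb
    simp [hb]
  · intro h; exact absurd (Finset.mem_univ i) h

theorem sum_col (h : ι × κ → ℝ) (j : κ) :
    ∑ c ∈ Finset.univ.filter (fun c : ι × κ => c.2 = j), h c = ∑ i : ι, h (i, j) := by
  rw [Finset.sum_filter, Fintype.sum_prod_type_right, Finset.sum_eq_single j]
  · simp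
  · intro b _ hb
    simp [hb]
  · intro h; exact absurd (Finset.mem_univ j) h

end

end Pool.Agent.Y514.SC
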