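import Mathlib

set_option autoImplicit false

namespace Pool.Agent.Y514.SC

open Finset
open scoped Classical

section
variable {ι κ : Type*} [Fintype ι] [Fintype κ]

/-- The ordered sum over triples of cells in general position, in closed form. -/
theorem match3_nonneg (y : ι → κ → ℝ) (hy : ∀ i j, 0 ≤ y i j)
    (R : ι → ℝ) (hR : ∀ i, R i = ∑ j, y i j) (C : κ → ℝ) (hC : ∀ j, C j = ∑ i, y i j)
    (Z : ℝ) (hZ : Z = ∑ i, ∑ j, y i j) :
    0 ≤ Z ^ 3 - 3 * Z * (∑ i, R i ^ 2 + ∑ j, C j ^ 2) + 3 * Z * (∑ i, ∑ j, y i j ^ 2)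
      + 6 * (∑ i, ∑ j, y i j * R i * C j) + 2 * (∑ i, R i ^ 3 + ∑ j, C j ^ 3)
      - 6 * (∑ i, ∑ j, R i * y i j ^ 2 + ∑ i, ∑ j, C j * y i j ^ 2)
      + 4 * ∑ i, ∑ j, y i j ^ 3 := by
  have hZR : ∑ i, R i = Z := by rw [hZ]; exact Finset.sum_congr rfl (fun i _ => hR i)
  have hZC : ∑ j, C j = Z := by
    rw [hZ, Finset.sum_comm]; exact Finset.sum_congr rfl (fun j _ => hC j)
  -- the weight of the complement of two rows and two columns
  set W : ι → κ → ι → κ → ℝ := fun i j k l =>
    Z - R i - R k - C j - C l + y i j + y i l + y k j + y k l with hW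
  have hWnn : ∀ i j k l, i ≠ k → j ≠ l → 0 ≤ W i j k l := by
    intro i j k l hik hjl
    have h1 : W i j k l = ∑ m ∈ Finset.univ.filter (fun m => m ≠ i ∧ m ≠ k),
        ∑ n ∈ Finset.univ.filter (fun n => n ≠ j ∧ n ≠ l), y m n := by
      have hrow : ∀ m, ∑ n ∈ Finset.univ.filter (fun n => n ≠ j ∧ n ≠ l), y m n
          = R m - y m j - y m l := by
        intro m
        rw [hR m, ← Finset.sum_filter_add_sum_filter_not Finset.univ (fun n => n ≠ j ∧ n ≠ l)]
        have : Finset.univ.filter (fun n : κ => ¬ (n ≠ j ∧ n ≠ l)) = {j, l} := by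
          ext n; simp only [Finset.mem_filter, Finset.mem_univ, true_and, Finset.mem_insert,
            Finset.mem_singleton]; tauto
        rw [this, Finset.sum_pair hjl]; ring
      simp only [hrow]
      have hcol : ∑ m ∈ Finset.univ.filter (fun m => m ≠ i ∧ m ≠ k), (R m - y m j - y m l)
          = (∑ m, (R m - y m j - y m l)) - (R i - y i j - y i l) - (R k - y k j - y k l) := by
        rw [← Finset.sum_filter_add_sum_filter_not Finset.univ (fun m => m ≠ i ∧ m ≠ k)]
        have : Finset.univ.filter (fun m : ι => ¬ (m ≠ i ∧ m ≠ k)) = {i, k} := by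
          ext n; simp only [Finset.mem_filter, Finset.mem_univ, true_and, Finset.mem_insert,
            Finset.mem_singleton]; tauto
        rw [this, Finset.sum_pair hik]; ring
      rw [hcol, Finset.sum_sub_distrib, Finset.sum_sub_distrib, hZR, ← hC j, ← hC l]
      simp only [hW]; ring
    rw [h1]
    exact Finset.sum_nonneg fun m _ => Finset.sum_nonneg fun n _ => hy m n
  -- the four sums
  have T0 : ∀ i j, ∑ k, ∑ l, y k l * W i j k l
      = Z * Z - R i * Z - (∑ k, R k ^ 2) - C j * Z - (∑ l, C l ^ 2) + y i j * Z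
        + (∑ l, y i l * C l) + (∑ k, y k j * R k) + ∑ k, ∑ l, y k l ^ 2 := by
    intro i j
    have e1 : ∀ k, ∑ l, y k l * W i j k l = (Z - R i - C j + y i j) * R k - R k ^ 2
        - (∑ l, y k l * C l) + (∑ l, y k l * y i l) + R k * y k j + ∑ l, y k l ^ 2 := by
      intro k
      have : ∀ l, y k l * W i j k l = (Z - R i - C j + y i j) * y k l - R k * y k l
        - y k l * C l + y k l * y i l + y k l * y k j + y k l ^ 2 := by
        intro l; simp only [hW]; ring
      simp only [this, Finset.sum_add_distrib, Finset.sum_sub_distrib, ← Finset.mul_sum,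
        ← Finset.sum_mul, ← hR]
      ring
    simp only [e1, Finset.sum_add_distrib, Finset.sum_sub_distrib, ← Finset.mul_sum, hZR]
    have e2 : ∑ k, ∑ l, y k l * C l = ∑ l, C l ^ 2 := by
      rw [Finset.sum_comm]
      refine Finset.sum_congr rfl fun l _ => ?_
      rw [← Finset.sum_mul, ← hC]; ring
    have e3 : ∑ k, ∑ l, y k l * y i l = ∑ l, y i l * C l := by
      rw [Finset.sum_comm]
      refine Finset.sum_congr rfl fun l _ => ?_
      rw [← Finset.sum_mul, ← hC]; ring
    have e4 : ∑ k, R k * y k j = ∑ k, y k j * R k :=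
      Finset.sum_congr rfl fun k _ => mul_comm _ _
    rw [e2, e3, e4]; ring
  have T1 : ∀ i j, ∑ l, y i l * W i j i l
      = (Z - 2 * R i - C j + 2 * y i j) * R i - (∑ l, y i l * C l) + 2 * ∑ l, y i l ^ 2 := by
    intro i j
    have : ∀ l, y i l * W i j i l = (Z - 2 * R i - C j + 2 * y i j) * y i l
      - y i l * C l + 2 * y i l ^ 2 := by
      intro l; simp only [hW]; ring
    simp only [this, Finset.sum_add_distrib, Finset.sum_sub_distrib, ← Finset.mul_sum, ← hR]
  have T2 : ∀ i j, ∑ k, y k j * W i j k j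
      = (Z - R i - 2 * C j + 2 * y i j) * C j - (∑ k, y k j * R k) + 2 * ∑ k, y k j ^ 2 := by
    intro i j
    have : ∀ k, y k j * W i j k j = (Z - R i - 2 * C j + 2 * y i j) * y k j
      - y k j * R k + 2 * y k j ^ 2 := by
      intro l; simp only [hW]; ring
    simp only [this, Finset.sum_add_distrib, Finset.sum_sub_distrib, ← Finset.mul_sum, ← hC]
  have T3 : ∀ i j, y i j * W i j i j = (Z - 2 * R i - 2 * C j + 4 * y i j) * y i j := by
    intro i j; simp only [hW]; ring
  -- inclusion-exclusion for the restricted sum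
  have hIE : ∀ i j, ∑ k ∈ Finset.univ.filter (fun k => k ≠ i),
      ∑ l ∈ Finset.univ.filter (fun l => l ≠ j), y k l * W i j k l
      = ∑ k, ∑ l, y k l * W i j k l - ∑ l, y i l * W i j i l - ∑ k, y k j * W i j k j
        + y i j * W i j i j := by
    intro i j
    have h1 : ∀ k, ∑ l ∈ Finset.univ.filter (fun l => l ≠ j), y k l * W i j k l
        = ∑ l, y k l * W i j k l - y k j * W i j k j := by
      intro k
      rw [← Finset.sum_filter_add_sum_filter_not Finset.univ (fun l => l ≠ j)]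
      have : Finset.univ.filter (fun n : κ => ¬ (n ≠ j)) = {j} := by
        ext n; simp
      rw [this, Finset.sum_singleton]; ring
    simp only [h1]
    have h2 : ∑ k ∈ Finset.univ.filter (fun k => k ≠ i),
        (∑ l, y k l * W i j k l - y k j * W i j k j)
        = ∑ k, (∑ l, y k l * W i j k l - y k j * W i j k j)
          - (∑ l, y i l * W i j i l - y i j * W i j i j) := by
      rw [← Finset.sum_filter_add_sum_filter_not Finset.univ (fun k => k ≠ i)]
      have : Finset.univ.filter (fun n : ι => ¬ (n ≠ i)) = {i} := by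
        ext n; simp
      rw [this, Finset.sum_singleton]; ring
    rw [h2, Finset.sum_sub_distrib]; ring
  have hpos : 0 ≤ ∑ i, ∑ j, y i j * ∑ k ∈ Finset.univ.filter (fun k => k ≠ i),
      ∑ l ∈ Finset.univ.filter (fun l => l ≠ j), y k l * W i j k l := by
    refine Finset.sum_nonneg fun i _ => Finset.sum_nonneg fun j _ =>
      mul_nonneg (hy i j) (Finset.sum_nonneg fun k hk => Finset.sum_nonneg fun l hl =>
        mul_nonneg (hy k l) (hWnn i j k l (Finset.mem_filter.mp hk).2.symm
          (Finset.mem_filter.mp hl).2.symm))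
  refine le_of_le_of_eq hpos ?_
  have hfin : ∀ i j, y i j * ∑ k ∈ Finset.univ.filter (fun k => k ≠ i),
      ∑ l ∈ Finset.univ.filter (fun l => l ≠ j), y k l * W i j k l
      = (Z ^ 2 - (∑ k, R k ^ 2) - (∑ l, C l ^ 2) + ∑ k, ∑ l, y k l ^ 2) * y i j
        - 2 * Z * (y i j * R i) - 2 * Z * (y i j * C j) + 2 * Z * y i j ^ 2
        + 2 * (y i j * (∑ l, y i l * C l)) + 2 * (y i j * (∑ k, y k j * R k))
        + 2 * (y i j * R i ^ 2) + 2 * (y i j * C j ^ 2) + 2 * (y i j * R i * C j)
        - 2 * (y i j * (∑ l, y i l ^ 2)) - 2 * (y i j * (∑ k, y k j ^ 2))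
        - 4 * (R i * y i j ^ 2) - 4 * (C j * y i j ^ 2) + 4 * y i j ^ 3 := by
    intro i j
    rw [hIE, T0, T1, T2, T3]; ring
  simp only [hfin, Finset.sum_add_distrib, Finset.sum_sub_distrib, ← Finset.mul_sum]
  have s0 : ∑ i, ∑ j, y i j = Z := hZ.symm
  have s1 : ∑ i, ∑ j, y i j * R i = ∑ i, R i ^ 2 := by
    refine Finset.sum_congr rfl fun i _ => ?_
    rw [← Finset.sum_mul, ← hR]; ring
  have s2 : ∑ i, ∑ j, y i j * C j = ∑ j, C j ^ 2 := by
    rw [Finset.sum_comm]
    refine Finset.sum_congr rfl fun i _ => ?_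
    rw [← Finset.sum_mul, ← hC]; ring
  have s3 : ∑ i, ∑ j, y i j * (∑ l, y i l * C l) = ∑ i, ∑ j, y i j * R i * C j := by
    refine Finset.sum_congr rfl fun i _ => ?_
    rw [← Finset.sum_mul, ← hR, Finset.mul_sum]
    exact Finset.sum_congr rfl fun j _ => by ring
  have s4 : ∑ i, ∑ j, y i j * (∑ k, y k j * R k) = ∑ i, ∑ j, y i j * R i * C j := by
    rw [Finset.sum_comm, Finset.sum_comm (f := fun i j => y i j * R i * C j)]
    refine Finset.sum_congr rfl fun j _ => ?_
    rw [← Finset.sum_mul, ← hC, Finset.mul_sum]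
    exact Finset.sum_congr rfl fun j _ => by ring
  have s5 : ∑ i, ∑ j, y i j * R i ^ 2 = ∑ i, R i ^ 3 := by
    refine Finset.sum_congr rfl fun i _ => ?_
    rw [← Finset.sum_mul, ← hR]; ring
  have s6 : ∑ i, ∑ j, y i j * C j ^ 2 = ∑ j, C j ^ 3 := by
    rw [Finset.sum_comm]
    refine Finset.sum_congr rfl fun i _ => ?_
    rw [← Finset.sum_mul, ← hC]; ring
  have s7 : ∑ i, ∑ j, y i j * (∑ l, y i l ^ 2) = ∑ i, ∑ j, R i * y i j ^ 2 := by
    refine Finset.sum_congr rfl fun i _ => ?_
    rw [← Finset.sum_mul, ← hR, Finset.mul_sum]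
  have s8 : ∑ i, ∑ j, y i j * (∑ k, y k j ^ 2) = ∑ i, ∑ j, C j * y i j ^ 2 := by
    rw [Finset.sum_comm, Finset.sum_comm (f := fun i j => C j * y i j ^ 2)]
    refine Finset.sum_congr rfl fun j _ => ?_
    rw [← Finset.sum_mul, ← hC, Finset.mul_sum]
  rw [s0, s1, s2, s3, s4, s5, s6, s7, s8]
  have s9 : ∑ i, R i * ∑ j, y i j ^ 2 = ∑ i, ∑ j, R i * y i j ^ 2 :=
    Finset.sum_congr rfl fun i _ => Finset.mul_sum _ _ _
  try rw [s9]
  ring

end

end Pool.Agent.Y514.SC
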