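import Mathlib
import Pool.Agent.Y514.SC.Low
import Pool.Agent.Y514.SC.Mat3

set_option autoImplicit false

namespace Pool.Agent.Y514.SC

open Finset
open scoped Classical

section
variable {ι κ : Type*}

noncomputable def ee (k : ℕ) (U : Finset (ι × κ)) : ℝ := if U.card = k then 1 else 0
noncomputable def rr (k : ℕ) (U : Finset (ι × κ)) : ℝ := if U.card = k ∧ rowC U then 1 else 0
noncomputable def cl (k : ℕ) (U : Finset (ι × κ)) : ℝ := if U.card = k ∧ colC U then 1 else 0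
noncomputable def pp (U : Finset (ι × κ)) : ℝ := if disjP U then 1 else 0

theorem ff_low (U V : Finset (ι × κ)) :
    (if U.card + V.card ≤ 4 then ff U V else 0)
      = rr 1 U * cl 1 V + rr 1 U * cl 2 V + rr 1 U * cl 3 V + rr 2 U * cl 1 V + rr 2 U * cl 2 V
        + rr 3 U * cl 1 V - (ee 1 U + ee 2 U + ee 3 U) * ee 1 V + (ee 1 U + ee 2 U) * pp V := by
  have hUne : U.Nonempty ↔ U.card ≠ 0 := by
    rw [Finset.nonempty_iff_ne_empty, ne_eq, ne_eq, Finset.card_eq_zero]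
  have hVne : V.Nonempty ↔ V.card ≠ 0 := by
    rw [Finset.nonempty_iff_ne_empty, ne_eq, ne_eq, Finset.card_eq_zero]
  unfold ff rr cl ee pp
  simp only [hUne, hVne]
  have hu : U.card = 0 ∨ U.card = 1 ∨ U.card = 2 ∨ U.card = 3 ∨ 4 ≤ U.card := by omega
  have hv : V.card = 0 ∨ V.card = 1 ∨ V.card = 2 ∨ V.card = 3 ∨ 4 ≤ V.card := by omega
  by_cases hd : disjP V
  · have hV2 := hd.card
    have hc := hd.not_colC
    rcases hu with h | h | h | h | h
    · simp [h, hV2, hd, hc]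
    · simp [h, hV2, hd, hc]
    · simp [h, hV2, hd, hc]
    · simp [h, hV2, hd, hc]
    · have h0 : U.card ≠ 0 := by omega
      have h1 : U.card ≠ 1 := by omega
      have h2 : U.card ≠ 2 := by omega
      have h3 : U.card ≠ 3 := by omega
      have h4 : ¬ (U.card + V.card ≤ 4) := by omega
      simp [h0, h1, h2, h3, h4]
  · by_cases hr : rowC U <;> by_cases hc : colC V <;> rcases hu with h | h | h | h | h <;>
      rcases hv with g | g | g | g | g
    all_goals first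
      | (simp [h, g, hd, hr, hc]; done)
      | (have g0 : V.card ≠ 0 := by omega
         have g1 : V.card ≠ 1 := by omega
         have g2 : V.card ≠ 2 := by omega
         have g3 : V.card ≠ 3 := by omega
         simp [h, g0, g1, g2, g3, hd, hr, hc]; done)
      | (have h0 : U.card ≠ 0 := by omega
         have h1 : U.card ≠ 1 := by omega
         have h2 : U.card ≠ 2 := by omega
         have h3 : U.card ≠ 3 := by omega
         simp [g, h0, h1, h2, h3, hd, hr, hc]; done)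
      | (have h0 : U.card ≠ 0 := by omega
         have h1 : U.card ≠ 1 := by omega
         have h2 : U.card ≠ 2 := by omega
         have h3 : U.card ≠ 3 := by omega
         have h4 : ¬ (U.card + V.card ≤ 4) := by omega
         simp [h0, h1, h2, h3, h4, hd, hr, hc]; done)
      | (have g0 : V.card ≠ 0 := by omega
         have g1 : V.card ≠ 1 := by omega
         have g2 : V.card ≠ 2 := by omega
         have g3 : V.card ≠ 3 := by omega
         have h4 : ¬ (U.card + V.card ≤ 4) := by omega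
         simp [g0, g1, g2, g3, h4, hd, hr, hc]; done)

variable [Fintype ι] [Fintype κ]

theorem dbl_sum (g h : Finset (ι × κ) → ℝ) (z : ι × κ → ℝ) :
    ∑ U : Finset (ι × κ), ∑ V : Finset (ι × κ), (g U * h V) * (wt z U * wt z V)
      = (∑ U : Finset (ι × κ), g U * wt z U) * (∑ V : Finset (ι × κ), h V * wt z V) := by
  rw [Finset.sum_mul_sum]
  refine Finset.sum_congr rfl fun U _ => Finset.sum_congr rfl fun V _ => ?_
  ring

theorem sum_ee (z : ι × κ → ℝ) (k : ℕ) :
    ∑ U : Finset (ι × κ), ee k U * wt z U = ∑ U ∈ powersetCard k (Finset.univ), ∏ c ∈ U, z c := by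
  have : ∀ U : Finset (ι × κ), ee k U * wt z U = if U.card = k then ∏ c ∈ U, z c else 0 := by
    intro U; unfold ee wt; split_ifs <;> simp
  simp only [this]
  rw [← Finset.sum_filter]
  congr 1
  ext U; simp [Finset.mem_powersetCard]

theorem sum_rr (z : ι × κ → ℝ) (k : ℕ) (hk : 1 ≤ k) :
    ∑ U : Finset (ι × κ), rr k U * wt z U
      = ∑ i : ι, ∑ U ∈ powersetCard k (Finset.univ.filter (fun c : ι × κ => c.1 = i)),
        ∏ c ∈ U, z c := by
  rw [← row_sum_eq (fun U => ∏ c ∈ U, z c) k hk]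
  refine Finset.sum_congr rfl fun U _ => ?_
  unfold rr wt; split_ifs <;> simp

theorem sum_cl (z : ι × κ → ℝ) (k : ℕ) (hk : 1 ≤ k) :
    ∑ U : Finset (ι × κ), cl k U * wt z U
      = ∑ j : κ, ∑ U ∈ powersetCard k (Finset.univ.filter (fun c : ι × κ => c.2 = j)),
        ∏ c ∈ U, z c := by
  rw [← col_sum_eq (fun U => ∏ c ∈ U, z c) k hk]
  refine Finset.sum_congr rfl fun U _ => ?_
  unfold cl wt; split_ifs <;> simp

theorem pp_eq (U : Finset (ι × κ)) : ee 2 U = rr 2 U + cl 2 U + pp U := by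
  unfold ee rr cl pp
  by_cases h : U.card = 2
  · obtain ⟨p, q, hpq, rfl⟩ := Finset.card_eq_two.mp h
    rw [if_pos h]
    by_cases h1 : p.1 = q.1
    · have h2 : p.2 ≠ q.2 := fun h2 => hpq (Prod.ext h1 h2)
      have hr : rowC ({p, q} : Finset (ι × κ)) := by
        intro c hc d hd
        simp only [Finset.mem_insert, Finset.mem_singleton] at hc hd
        rcases hc with rfl | rfl <;> rcases hd with rfl | rfl <;> simp [h1]
      have hc : ¬ colC ({p, q} : Finset (ι × κ)) := fun hc => h2 (hc p (by simp) q (by simp))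
      have hd : ¬ disjP ({p, q} : Finset (ι × κ)) := fun hd => hd.not_rowC hr
      simp [h, hr, hc, hd]
    · have hr : ¬ rowC ({p, q} : Finset (ι × κ)) := fun hc => h1 (hc p (by simp) q (by simp))
      by_cases h2 : p.2 = q.2
      · have hc : colC ({p, q} : Finset (ι × κ)) := by
          intro c hc d hd
          simp only [Finset.mem_insert, Finset.mem_singleton] at hc hd
          rcases hc with rfl | rfl <;> rcases hd with rfl | rfl <;> simp [h2]
        have hd : ¬ disjP ({p, q} : Finset (ι × κ)) := fun hd => hd.not_colC hc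
        simp [h, hr, hc, hd]
      · have hc : ¬ colC ({p, q} : Finset (ι × κ)) := fun hc => h2 (hc p (by simp) q (by simp))
        have hd : disjP ({p, q} : Finset (ι × κ)) := ⟨p, q, h1, h2, rfl⟩
        simp [h, hr, hc, hd]
  · have hd : ¬ disjP U := fun hd => h hd.card
    simp [h, hd]

theorem low_deg {z : ι × κ → ℝ} (hz : ∀ c, 0 ≤ z c) :
    0 ≤ ∑ U : Finset (ι × κ), ∑ V : Finset (ι × κ),
      (if U.card + V.card ≤ 4 then ff U V else 0) * (wt z U * wt z V) := by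
  -- closed forms
  set y : ι → κ → ℝ := fun i j => z (i, j) with hy
  set R : ι → ℝ := fun i => ∑ j, y i j with hR
  set C : κ → ℝ := fun j => ∑ i, y i j with hC
  set Z : ℝ := ∑ i, ∑ j, y i j with hZ
  set p2 : ℝ := ∑ i, ∑ j, y i j ^ 2 with hp2
  set p3 : ℝ := ∑ i, ∑ j, y i j ^ 3 with hp3
  set S : ℝ := ∑ i, ∑ j, y i j * R i * C j with hS
  set MR : ℝ := ∑ i, ∑ j, R i * y i j ^ 2 with hMR
  set MC : ℝ := ∑ i, ∑ j, C j * y i j ^ 2 with hMC
  have hZC : Z = ∑ j, C j := by rw [hZ, Finset.sum_comm]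
  have hZR : Z = ∑ i, R i := rfl
  have cZ : ∑ c : ι × κ, z c = Z := by rw [Fintype.sum_prod_type]
  have c2 : ∑ c : ι × κ, z c ^ 2 = p2 := by rw [Fintype.sum_prod_type]
  have c3 : ∑ c : ι × κ, z c ^ 3 = p3 := by rw [Fintype.sum_prod_type]
  have e1 : ∑ U : Finset (ι × κ), ee 1 U * wt z U = Z := by
    rw [sum_ee, E1_eq, cZ]
  have e2 : 2 * ∑ U : Finset (ι × κ), ee 2 U * wt z U = Z ^ 2 - p2 := by
    rw [sum_ee, E2_eq, cZ, c2]
  have e3 : 6 * ∑ U : Finset (ι × κ), ee 3 U * wt z U = Z ^ 3 - 3 * Z * p2 + 2 * p3 := by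
    rw [sum_ee, E3_eq, cZ, c2, c3]
  have r1 : ∑ U : Finset (ι × κ), rr 1 U * wt z U = Z := by
    rw [sum_rr z 1 (le_refl _)]
    simp only [E1_eq, sum_row]; rfl
  have l1 : ∑ U : Finset (ι × κ), cl 1 U * wt z U = Z := by
    rw [sum_cl z 1 (le_refl _)]
    simp only [E1_eq, sum_col]; rw [hZC]
  have r2 : 2 * ∑ U : Finset (ι × κ), rr 2 U * wt z U = ∑ i, R i ^ 2 - p2 := by
    rw [sum_rr z 2 (by norm_num), Finset.mul_sum]
    simp only [E2_eq, sum_row, Finset.sum_sub_distrib]; rfl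
  have l2 : 2 * ∑ U : Finset (ι × κ), cl 2 U * wt z U = ∑ j, C j ^ 2 - p2 := by
    rw [sum_cl z 2 (by norm_num), Finset.mul_sum]
    simp only [E2_eq, sum_col, Finset.sum_sub_distrib]
    rw [hp2, Finset.sum_comm]
  have r3 : 6 * ∑ U : Finset (ι × κ), rr 3 U * wt z U = ∑ i, R i ^ 3 - 3 * MR + 2 * p3 := by
    rw [sum_rr z 3 (by norm_num), Finset.mul_sum]
    simp only [E3_eq, sum_row, Finset.sum_sub_distrib, Finset.sum_add_distrib, ← Finset.mul_sum]
    have : ∑ i : ι, 3 * (∑ j, z (i, j)) * ∑ j, z (i, j) ^ 2 = 3 * MR := by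
      rw [hMR, Finset.mul_sum]
      refine Finset.sum_congr rfl fun i _ => ?_
      rw [mul_assoc, Finset.mul_sum]
    rw [this]
  have l3 : 6 * ∑ U : Finset (ι × κ), cl 3 U * wt z U = ∑ j, C j ^ 3 - 3 * MC + 2 * p3 := by
    rw [sum_cl z 3 (by norm_num), Finset.mul_sum]
    simp only [E3_eq, sum_col, Finset.sum_sub_distrib, Finset.sum_add_distrib, ← Finset.mul_sum]
    have : ∑ j : κ, 3 * (∑ i, z (i, j)) * ∑ i, z (i, j) ^ 2 = 3 * MC := by
      rw [hMC, Finset.sum_comm, Finset.mul_sum]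
      refine Finset.sum_congr rfl fun i _ => ?_
      rw [mul_assoc, Finset.mul_sum]
    rw [this, hp3, Finset.sum_comm (f := fun i j => y i j ^ 3)]
  have hp : ∑ U : Finset (ι × κ), pp U * wt z U
      = ∑ U : Finset (ι × κ), ee 2 U * wt z U - ∑ U : Finset (ι × κ), rr 2 U * wt z U
        - ∑ U : Finset (ι × κ), cl 2 U * wt z U := by
    rw [← Finset.sum_sub_distrib, ← Finset.sum_sub_distrib]
    refine Finset.sum_congr rfl fun U _ => ?_
    rw [pp_eq U]; ring
  -- expand the double sum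
  have hexp : ∑ U : Finset (ι × κ), ∑ V : Finset (ι × κ),
      (if U.card + V.card ≤ 4 then ff U V else 0) * (wt z U * wt z V)
      = (∑ U : Finset (ι × κ), rr 1 U * wt z U) * (∑ V : Finset (ι × κ), cl 1 V * wt z V)
      + (∑ U : Finset (ι × κ), rr 1 U * wt z U) * (∑ V : Finset (ι × κ), cl 2 V * wt z V)
      + (∑ U : Finset (ι × κ), rr 1 U * wt z U) * (∑ V : Finset (ι × κ), cl 3 V * wt z V)
      + (∑ U : Finset (ι × κ), rr 2 U * wt z U) * (∑ V : Finset (ι × κ), cl 1 V * wt z V)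
      + (∑ U : Finset (ι × κ), rr 2 U * wt z U) * (∑ V : Finset (ι × κ), cl 2 V * wt z V)
      + (∑ U : Finset (ι × κ), rr 3 U * wt z U) * (∑ V : Finset (ι × κ), cl 1 V * wt z V)
      - ((∑ U : Finset (ι × κ), ee 1 U * wt z U) * (∑ V : Finset (ι × κ), ee 1 V * wt z V)
        + (∑ U : Finset (ι × κ), ee 2 U * wt z U) * (∑ V : Finset (ι × κ), ee 1 V * wt z V)
        + (∑ U : Finset (ι × κ), ee 3 U * wt z U) * (∑ V : Finset (ι × κ), ee 1 V * wt z V))
      + ((∑ U : Finset (ι × κ), ee 1 U * wt z U) * (∑ V : Finset (ι × κ), pp V * wt z V)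
        + (∑ U : Finset (ι × κ), ee 2 U * wt z U) * (∑ V : Finset (ι × κ), pp V * wt z V)) := by
    simp only [← dbl_sum, ← Finset.sum_add_distrib, ← Finset.sum_sub_distrib]
    refine Finset.sum_congr rfl fun U _ => Finset.sum_congr rfl fun V _ => ?_
    rw [ff_low]; ring
  rw [hexp, hp, r1, l1, e1]
  -- the sum of squares
  have hsq : 0 ≤ ∑ i, ∑ j, (Z * y i j - R i * C j) ^ 2 :=
    Finset.sum_nonneg fun i _ => Finset.sum_nonneg fun j _ => sq_nonneg _
  have hsq2 : ∑ i, ∑ j, (Z * y i j - R i * C j) ^ 2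
      = Z ^ 2 * p2 - 2 * Z * S + (∑ i, R i ^ 2) * (∑ j, C j ^ 2) := by
    have h1 : ∀ i j, (Z * y i j - R i * C j) ^ 2
        = Z ^ 2 * y i j ^ 2 - 2 * Z * (y i j * R i * C j) + R i ^ 2 * C j ^ 2 := by
      intro i j; ring
    simp only [h1, Finset.sum_add_distrib, Finset.sum_sub_distrib, ← Finset.mul_sum]
    rw [← Finset.sum_mul]
  have hm3 := match3_nonneg y (fun i j => hz (i, j)) R (fun i => rfl) C (fun j => rfl) Z hZ
  have hZnn : 0 ≤ Z := Finset.sum_nonneg fun i _ => Finset.sum_nonneg fun j _ => hz (i, j)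
  have hm3' := mul_nonneg hZnn hm3
  rw [hsq2] at hsq
  set E2 : ℝ := ∑ U : Finset (ι × κ), ee 2 U * wt z U
  set E3 : ℝ := ∑ U : Finset (ι × κ), ee 3 U * wt z U
  set A2 : ℝ := ∑ U : Finset (ι × κ), rr 2 U * wt z U
  set A3 : ℝ := ∑ U : Finset (ι × κ), rr 3 U * wt z U
  set B2 : ℝ := ∑ U : Finset (ι × κ), cl 2 U * wt z U
  set B3 : ℝ := ∑ U : Finset (ι × κ), cl 3 U * wt z U
  have hE2 : E2 = (Z ^ 2 - p2) / 2 := by linarith
  have hE3 : E3 = (Z ^ 3 - 3 * Z * p2 + 2 * p3) / 6 := by linarith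
  have hA2 : A2 = (∑ i, R i ^ 2 - p2) / 2 := by linarith
  have hA3 : A3 = (∑ i, R i ^ 3 - 3 * MR + 2 * p3) / 6 := by linarith
  have hB2 : B2 = (∑ j, C j ^ 2 - p2) / 2 := by linarith
  have hB3 : B3 = (∑ j, C j ^ 3 - 3 * MC + 2 * p3) / 6 := by linarith
  rw [hE2, hE3, hA2, hA3, hB2, hB3]
  have : 0 ≤ (1 / 4) * (Z ^ 2 * p2 - 2 * Z * S + (∑ i, R i ^ 2) * (∑ j, C j ^ 2))
      + (1 / 12) * (Z * (Z ^ 3 - 3 * Z * (∑ i, R i ^ 2 + ∑ j, C j ^ 2) + 3 * Z * p2 + 6 * S
        + 2 * (∑ i, R i ^ 3 + ∑ j, C j ^ 3) - 6 * (MR + MC) + 4 * p3)) := by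
    have a1 : 0 ≤ (1 / 4 : ℝ) * (Z ^ 2 * p2 - 2 * Z * S + (∑ i, R i ^ 2) * (∑ j, C j ^ 2)) := by
      linarith
    have a2 : 0 ≤ (1 / 12 : ℝ) * (Z * (Z ^ 3 - 3 * Z * (∑ i, R i ^ 2 + ∑ j, C j ^ 2) + 3 * Z * p2
        + 6 * S + 2 * (∑ i, R i ^ 3 + ∑ j, C j ^ 3) - 6 * (MR + MC) + 4 * p3)) := by
      linarith
    linarith
  refine le_of_le_of_eq this ?_
  ring

end

end Pool.Agent.Y514.SC
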