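import Mathlib
import Pool.Agent.Y514.SC.High
import Pool.Agent.Y514.SC.Low2

set_option autoImplicit false

namespace Pool.Agent.Y514.SC

open Finset
open scoped Classical

section
variable {ι κ : Type*} [Fintype ι] [Fintype κ]

/-- **The matrix inequality.**  For nonnegative weights on the cells of a matrix: (weight of all
nonempty sets) times (weight of the singletons minus weight of the pairs in general position) is
at most (weight of nonempty sets in a row) times (weight of nonempty sets in a column). -/
theorem matrix_ineq {z : ι × κ → ℝ} (hz : ∀ c, 0 ≤ z c) :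
    (∑ U : Finset (ι × κ), if U.Nonempty then wt z U else 0)
      * ((∑ U : Finset (ι × κ), if U.card = 1 then wt z U else 0)
        - ∑ U : Finset (ι × κ), if disjP U then wt z U else 0)
    ≤ (∑ U : Finset (ι × κ), if U.Nonempty ∧ rowC U then wt z U else 0)
      * (∑ U : Finset (ι × κ), if U.Nonempty ∧ colC U then wt z U else 0) := by
  have h := add_nonneg (low_deg hz) (high_deg hz)
  rw [← Finset.sum_add_distrib] at h
  have h2 : ∀ U : Finset (ι × κ),
      (∑ V : Finset (ι × κ), (if U.card + V.card ≤ 4 then ff U V else 0) * (wt z U * wt z V)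
        + ∑ V : Finset (ι × κ), (if 5 ≤ U.card + V.card then ff U V else 0) * (wt z U * wt z V))
      = ∑ V : Finset (ι × κ), ff U V * (wt z U * wt z V) := by
    intro U
    rw [← Finset.sum_add_distrib]
    refine Finset.sum_congr rfl fun V _ => ?_
    by_cases h4 : U.card + V.card ≤ 4
    · rw [if_pos h4, if_neg (by omega)]; ring
    · rw [if_neg h4, if_pos (by omega)]; ring
  rw [Finset.sum_congr rfl (fun U _ => h2 U)] at h
  have h3 : ∑ U : Finset (ι × κ), ∑ V : Finset (ι × κ), ff U V * (wt z U * wt z V)
      = (∑ U : Finset (ι × κ), if U.Nonempty ∧ rowC U then wt z U else 0)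
          * (∑ U : Finset (ι × κ), if U.Nonempty ∧ colC U then wt z U else 0)
        - (∑ U : Finset (ι × κ), if U.Nonempty then wt z U else 0)
          * (∑ U : Finset (ι × κ), if U.card = 1 then wt z U else 0)
        + (∑ U : Finset (ι × κ), if U.Nonempty then wt z U else 0)
          * (∑ U : Finset (ι × κ), if disjP U then wt z U else 0) := by
    simp only [Finset.sum_mul_sum, ← Finset.sum_add_distrib, ← Finset.sum_sub_distrib]
    refine Finset.sum_congr rfl fun U _ => Finset.sum_congr rfl fun V _ => ?_
    unfold ff
    by_cases h1 : U.Nonempty <;> by_cases h2 : rowC U <;> by_cases h3 : V.Nonempty <;>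
      by_cases h4 : colC V <;> by_cases h5 : V.card = 1 <;> by_cases h6 : disjP V <;>
      simp [h1, h2, h3, h4, h5, h6] <;> ring
  rw [h3] at h
  linarith

end

end Pool.Agent.Y514.SC
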