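import Mathlib

set_option autoImplicit false

namespace Pool.Agent.Y514.SC

open Set

section
variable {α : Type*} [Finite α] {M : Matroid α}

/-- sets inside the closure of a small set are not spanning -/
theorem not_spanning_of_subset {X Y : Set α} (h : X ⊆ M.closure Y) (hY : Y.encard < M.eRank) :
    ¬ M.Spanning X := by
  intro hX
  have h1 := hX.eRk_eq
  have h2 : M.eRk X ≤ M.eRk Y := by
    rw [← M.eRk_closure_eq Y]; exact M.eRk_mono h
  have h3 := M.eRk_le_encard Y
  have : M.eRank ≤ Y.encard := by rw [← h1]; exact h2.trans h3
  exact absurd hY (not_lt.mpr this)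

theorem spanning_of_subset_closure (hE : M.E = Set.univ) {X Y : Set α} (hY : M.Spanning Y)
    (h : Y ⊆ M.closure X) : M.Spanning X := by
  rw [Matroid.spanning_iff_ground_subset_closure (by rw [hE]; exact subset_univ _)]
  have h1 : M.closure Y ⊆ M.closure X := by
    have := M.closure_subset_closure_of_subset_closure h
    exact this
  rw [hY.closure_eq] at h1
  exact h1

theorem encard_pair_le (a b : α) : ({a, b} : Set α).encard ≤ 2 := by
  have := Set.encard_insert_le ({b} : Set α) a
  rw [Set.encard_singleton] at this
  simpa [one_add_one_eq_two] using this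

variable (hE : M.E = Set.univ) (hr : M.eRank = 3) {e f : α} (hef : M.Indep {e, f}) (hne : e ≠ f)

include hE hr hef hne

theorem base3 {g : α} (hg : g ∉ M.closure {e, f}) : M.Spanning {e, f, g} := by
  have hgef : g ∉ ({e, f} : Set α) := fun h => hg (M.mem_closure_of_mem h (by rw [hE]; exact subset_univ _))
  have hi : M.Indep (insert g {e, f}) := by
    rw [hef.insert_indep_iff]
    exact Or.inl ⟨by rw [hE]; exact mem_univ _, hg⟩
  have hcard : (insert g ({e, f} : Set α)).encard = 3 := by
    rw [Set.encard_insert_of_notMem hgef, Set.encard_pair hne]; rfl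
  have hb : M.IsBase (insert g {e, f}) := by
    refine hi.isBase_of_eRk_ge (Set.toFinite _) ?_
    rw [hi.eRk_eq_encard, hcard, hr]
  have : (insert g ({e, f} : Set α)) = {e, f, g} := by
    ext x; simp only [mem_insert_iff, mem_singleton_iff]; tauto
  rw [← this]
  exact hb.spanning

/-- elements in the same cell are parallel -/
theorem parallel {g b : α} (hg : g ∉ M.closure {e, f})
    (h1 : M.closure (insert b {e}) = M.closure (insert g {e}))
    (h2 : M.closure (insert b {f}) = M.closure (insert g {f})) :
    b ∈ M.closure {g} := by
  by_contra hb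
  have hE' : ∀ X : Set α, X ⊆ M.E := fun X => by rw [hE]; exact subset_univ _
  have hbe : b ∈ M.closure (insert e {g}) := by
    have : b ∈ M.closure (insert b {e}) := M.mem_closure_of_mem (by simp) (hE' _)
    rw [h1] at this
    have hpair : (insert g ({e} : Set α)) = insert e {g} := by
      ext x; simp only [mem_insert_iff, mem_singleton_iff]; tauto
    rwa [hpair] at this
  have hbf : b ∈ M.closure (insert f {g}) := by
    have : b ∈ M.closure (insert b {f}) := M.mem_closure_of_mem (by simp) (hE' _)
    rw [h2] at this
    have hpair : (insert g ({f} : Set α)) = insert f {g} := by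
      ext x; simp only [mem_insert_iff, mem_singleton_iff]; tauto
    rwa [hpair] at this
  have he := (M.closure_exchange ⟨hbe, hb⟩).1
  have hf := (M.closure_exchange ⟨hbf, hb⟩).1
  have hg' : g ∈ M.closure (insert b {g}) := M.mem_closure_of_mem (by simp) (hE' _)
  have hsub : ({e, f, g} : Set α) ⊆ M.closure (insert b {g}) := by
    intro x hx
    simp only [mem_insert_iff, mem_singleton_iff] at hx
    rcases hx with rfl | rfl | rfl
    · exact he
    · exact hf
    · exact hg'
  refine not_spanning_of_subset hsub ?_ (base3 hE hr hef hne hg)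
  refine lt_of_le_of_lt (encard_pair_le b g) ?_
  rw [hr]; norm_num

/-- a set containing `e` and two elements on different lines through `e`, or an element of
`cl{e,f}` not parallel to `e` and an element off `cl{e,f}`, is spanning -/
theorem span_e {X : Set α} (heX : e ∈ X)
    (h : (∃ q ∈ X, q ∈ M.closure {e, f} ∧ q ∉ M.closure {e} ∧ ∃ g ∈ X, g ∉ M.closure {e, f}) ∨
      (∃ b ∈ X, ∃ c ∈ X, b ∉ M.closure {e, f} ∧ c ∉ M.closure {e, f} ∧
        M.closure (insert b {e}) ≠ M.closure (insert c {e}))) : M.Spanning X := by
  have hE' : ∀ X : Set α, X ⊆ M.E := fun X => by rw [hE]; exact subset_univ _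
  rcases h with ⟨q, hqX, hq1, hq2, g, hgX, hg⟩ | ⟨b, hbX, c, hcX, hb, hc, hbc⟩
  · have hq1' : q ∈ M.closure (insert f {e}) := by
      have hpair : (insert f ({e} : Set α)) = {e, f} := by
        ext x; simp only [mem_insert_iff, mem_singleton_iff]; tauto
      rw [hpair]; exact hq1
    have hf := (M.closure_exchange ⟨hq1', hq2⟩).1
    have hsub : ({e, f, g} : Set α) ⊆ M.closure X := by
      intro x hx
      simp only [mem_insert_iff, mem_singleton_iff] at hx
      rcases hx with rfl | rfl | rfl
      · exact M.mem_closure_of_mem heX (hE' _)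
      · refine M.closure_subset_closure ?_ hf
        intro y hy
        simp only [mem_insert_iff, mem_singleton_iff] at hy
        rcases hy with rfl | rfl
        · exact hqX
        · exact heX
      · exact M.mem_closure_of_mem hgX (hE' _)
    exact spanning_of_subset_closure hE (base3 hE hr hef hne hg) hsub
  · have hsub0 : M.closure {e} ⊆ M.closure {e, f} := M.closure_subset_closure (by simp)
    have hb0 : b ∉ M.closure {e} := fun h => hb (hsub0 h)
    have hc0 : c ∉ M.closure {e} := fun h => hc (hsub0 h)
    have hc1 : c ∉ M.closure (insert b {e}) := fun h =>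
      hbc (M.closure_insert_congr ⟨h, hc0⟩).symm
    have hei : M.Indep {e} := hef.subset (by simp)
    have hbi : M.Indep (insert b {e}) := by
      rw [hei.insert_indep_iff]; exact Or.inl ⟨by rw [hE]; exact mem_univ _, hb0⟩
    have hci : M.Indep (insert c (insert b {e})) := by
      rw [hbi.insert_indep_iff]; exact Or.inl ⟨by rw [hE]; exact mem_univ _, hc1⟩
    have hbe : b ∉ ({e} : Set α) := fun h => hb0 (M.mem_closure_of_mem h (hE' _))
    have hcbe : c ∉ (insert b ({e} : Set α)) := fun h => hc1 (M.mem_closure_of_mem h (hE' _))
    have hcard : (insert c (insert b ({e} : Set α))).encard = 3 := by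
      rw [Set.encard_insert_of_notMem hcbe, Set.encard_insert_of_notMem hbe,
        Set.encard_singleton]; rfl
    have hbase : M.IsBase (insert c (insert b {e})) := by
      refine hci.isBase_of_eRk_ge (Set.toFinite _) ?_
      rw [hci.eRk_eq_encard, hcard, hr]
    refine hbase.spanning_of_superset ?_ (hE' _)
    intro y hy
    simp only [mem_insert_iff, mem_singleton_iff] at hy
    rcases hy with rfl | rfl | rfl
    · exact hcX
    · exact hbX
    · exact heX

end

end Pool.Agent.Y514.SC
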