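import Mathlib

set_option autoImplicit false

namespace Pool.Agent.Y514.SC

open Finset

section
variable {γ : Type*} [Fintype γ] [DecidableEq γ]

/-- Regrouping a double sum over pairs of subsets by intersection and symmetric difference. -/
theorem regroup (H : Finset γ → Finset γ → ℝ) :
    ∑ U : Finset γ, ∑ V : Finset γ, H U V
      = ∑ I : Finset γ, ∑ J ∈ (Iᶜ).powerset, ∑ L ∈ J.powerset, H (I ∪ (J \ L)) (I ∪ L) := by
  classical
  rw [← Finset.sum_product']
  have h2 : ∑ I : Finset γ, ∑ J ∈ (Iᶜ).powerset, ∑ L ∈ J.powerset, H (I ∪ (J \ L)) (I ∪ L)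
      = ∑ x ∈ (Finset.univ : Finset (Finset γ)).sigma (fun I => (Iᶜ).powerset.sigma
          (fun J => J.powerset)), H (x.1 ∪ (x.2.1 \ x.2.2)) (x.1 ∪ x.2.2) := by
    rw [Finset.sum_sigma]
    refine Finset.sum_congr rfl fun I _ => ?_
    rw [Finset.sum_sigma]
  rw [h2]
  refine Finset.sum_bij' (fun p _ => ⟨p.1 ∩ p.2, ⟨(p.1 \ p.2) ∪ (p.2 \ p.1), p.2 \ p.1⟩⟩)
    (fun x _ => (x.1 ∪ (x.2.1 \ x.2.2), x.1 ∪ x.2.2)) ?_ ?_ ?_ ?_ ?_
  · rintro ⟨U, V⟩ _
    simp only [Finset.mem_sigma, Finset.mem_univ, Finset.mem_powerset, true_and]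
    constructor
    · intro c hc
      simp only [Finset.mem_union, Finset.mem_sdiff, Finset.mem_compl, Finset.mem_inter] at hc ⊢
      tauto
    · exact Finset.subset_union_right
  · intro x _; simp
  · rintro ⟨U, V⟩ _
    ext c <;> simp only [Finset.mem_union, Finset.mem_sdiff, Finset.mem_inter] <;> tauto
  · rintro ⟨I, J, L⟩ hx
    simp only [Finset.mem_sigma, Finset.mem_univ, Finset.mem_powerset, true_and] at hx
    obtain ⟨hJ, hL⟩ := hx
    have hdis : ∀ c, c ∈ J → c ∉ I := fun c hc => by simpa using hJ hc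
    have hLJ : ∀ c, c ∈ L → c ∈ J := fun c hc => hL hc
    have e1 : (I ∪ (J \ L)) ∩ (I ∪ L) = I := by
      ext c; have := hdis c; have := hLJ c
      simp only [Finset.mem_union, Finset.mem_sdiff, Finset.mem_inter]; tauto
    have e2 : ((I ∪ (J \ L)) \ (I ∪ L)) ∪ L = J := by
      ext c; have := hdis c; have := hLJ c
      simp only [Finset.mem_union, Finset.mem_sdiff]; tauto
    have e3 : (I ∪ L) \ (I ∪ (J \ L)) = L := by
      ext c; have := hdis c; have := hLJ c
      simp only [Finset.mem_union, Finset.mem_sdiff]; tauto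
    simp only [e1, e3, e2]
  · rintro ⟨U, V⟩ _
    have e1 : (U ∩ V) ∪ (((U \ V) ∪ (V \ U)) \ (V \ U)) = U := by
      ext c; simp only [Finset.mem_union, Finset.mem_sdiff, Finset.mem_inter]; tauto
    have e2 : (U ∩ V) ∪ (V \ U) = V := by
      ext c; simp only [Finset.mem_union, Finset.mem_sdiff, Finset.mem_inter]; tauto
    simp only [e1, e2]

/-- the weight of a set of cells -/
noncomputable def wt (z : γ → ℝ) (U : Finset γ) : ℝ := ∏ c ∈ U, z c

omit [Fintype γ] [DecidableEq γ] in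
theorem wt_nonneg {z : γ → ℝ} (hz : ∀ c, 0 ≤ z c) (U : Finset γ) : 0 ≤ wt z U :=
  Finset.prod_nonneg fun c _ => hz c

theorem wt_split {z : γ → ℝ} {I J L : Finset γ} (hJ : J ⊆ Iᶜ) (hL : L ⊆ J) :
    wt z (I ∪ (J \ L)) * wt z (I ∪ L) = wt z I ^ 2 * wt z J := by
  have hd1 : Disjoint I (J \ L) := by
    rw [Finset.disjoint_left]; intro c hc hc2
    have := hJ (Finset.mem_sdiff.mp hc2).1
    simp at this; exact this hc
  have hd2 : Disjoint I L := by
    rw [Finset.disjoint_left]; intro c hc hc2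
    have := hJ (hL hc2)
    simp at this; exact this hc
  unfold wt
  rw [Finset.prod_union hd1, Finset.prod_union hd2, ← Finset.prod_sdiff hL]
  ring

theorem regroup_wt (z : γ → ℝ) (f : Finset γ → Finset γ → ℝ) :
    ∑ U : Finset γ, ∑ V : Finset γ, f U V * (wt z U * wt z V)
      = ∑ I : Finset γ, ∑ J ∈ (Iᶜ).powerset,
          wt z I ^ 2 * wt z J * ∑ L ∈ J.powerset, f (I ∪ (J \ L)) (I ∪ L) := by
  rw [regroup]
  refine Finset.sum_congr rfl fun I _ => Finset.sum_congr rfl fun J hJ => ?_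
  rw [Finset.mul_sum]
  refine Finset.sum_congr rfl fun L hL => ?_
  rw [wt_split (Finset.mem_powerset.mp hJ) (Finset.mem_powerset.mp hL)]
  ring

end

end Pool.Agent.Y514.SC
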