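import Mathlib
import Pool.Agent.Y514.SC.Regroup

set_option autoImplicit false

namespace Pool.Agent.Y514.SC

open Finset
open scoped Classical

section
variable {α γ : Type*}

/-- weight of the nonempty subsets of a class -/
noncomputable def zc (z : α → ℝ) (D : Finset α) (cell : α → γ) (c : γ) : ℝ :=
  ∏ g ∈ D.filter (fun g => cell g = c), (1 + z g) - 1

theorem zc_nonneg {z : α → ℝ} (hz : ∀ a, 0 ≤ z a) (D : Finset α) (cell : α → γ) (c : γ) :
    0 ≤ zc z D cell c := by
  unfold zc
  have : (1 : ℝ) ≤ ∏ g ∈ D.filter (fun g => cell g = c), (1 + z g) := by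
    have h := Finset.prod_le_prod (s := D.filter (fun g => cell g = c))
      (f := fun _ => (1 : ℝ)) (g := fun g => 1 + z g)
      (fun i _ => zero_le_one) (fun i _ => by have := hz i; linarith)
    simpa using h
  linarith

theorem push [Fintype γ] [DecidableEq γ] (z : α → ℝ) (cell : α → γ) (D : Finset α) :
    ∀ F : Finset γ → ℝ, ∑ B ∈ D.powerset, F (B.image cell) * wt z B
      = ∑ S : Finset γ, F S * wt (zc z D cell) S := by
  induction D using Finset.induction_on with
  | empty =>
    intro F
    rw [Finset.powerset_empty, Finset.sum_singleton, Finset.image_empty]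
    rw [Finset.sum_eq_single (∅ : Finset γ)]
    · simp [wt]
    · intro S _ hS
      have : wt (zc z ∅ cell) S = 0 := by
        obtain ⟨c, hc⟩ := Finset.nonempty_iff_ne_empty.mpr hS
        unfold wt
        exact Finset.prod_eq_zero hc (by simp [zc])
      rw [this, mul_zero]
    · intro h; exact absurd (Finset.mem_univ _) h
  | insert g D hg ih =>
    intro F
    set c := cell g with hc
    rw [Finset.sum_powerset_insert hg]
    have h1 : ∑ B ∈ D.powerset, F ((insert g B).image cell) * wt z (insert g B)
        = z g * ∑ B ∈ D.powerset, (fun S => F (insert c S)) (B.image cell) * wt z B := by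
      rw [Finset.mul_sum]
      refine Finset.sum_congr rfl fun B hB => ?_
      have hgB : g ∉ B := fun h => hg (Finset.mem_powerset.mp hB h)
      rw [Finset.image_insert]
      unfold wt
      rw [Finset.prod_insert hgB]
      ring
    rw [h1, ih F, ih (fun S => F (insert c S))]
    have huniv : (Finset.univ : Finset (Finset γ)) = (insert c (Finset.univ.erase c)).powerset := by
      rw [Finset.insert_erase (Finset.mem_univ c), Finset.powerset_univ]
    have hnc : c ∉ (Finset.univ.erase c : Finset γ) := by simp
    rw [huniv, Finset.sum_powerset_insert hnc, Finset.sum_powerset_insert hnc,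
      Finset.sum_powerset_insert hnc, mul_add, Finset.mul_sum, Finset.mul_sum]
    rw [← Finset.sum_add_distrib, ← Finset.sum_add_distrib, ← Finset.sum_add_distrib,
      ← Finset.sum_add_distrib]
    refine Finset.sum_congr rfl fun S hS => ?_
    have hcS : c ∉ S := fun h => hnc (Finset.mem_powerset.mp hS h)
    have e0 : zc z (insert g D) cell c = (1 + z g) * (zc z D cell c + 1) - 1 := by
      unfold zc
      rw [Finset.filter_insert, if_pos hc.symm, Finset.prod_insert (by simp [hg])]
      ring
    have e1 : ∀ x ∈ S, zc z (insert g D) cell x = zc z D cell x := by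
      intro x hx
      have hne : cell g ≠ x := fun h => hcS (by rw [hc, h]; exact hx)
      unfold zc
      rw [Finset.filter_insert, if_neg hne]
    have e2 : wt (zc z (insert g D) cell) S = wt (zc z D cell) S := by
      unfold wt; exact Finset.prod_congr rfl e1
    have e3 : wt (zc z (insert g D) cell) (insert c S)
        = ((1 + z g) * (zc z D cell c + 1) - 1) * wt (zc z D cell) S := by
      have : wt (zc z (insert g D) cell) (insert c S)
          = zc z (insert g D) cell c * wt (zc z (insert g D) cell) S := by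
        unfold wt; rw [Finset.prod_insert hcS]
      rw [this, e0, e2]
    have e4 : wt (zc z D cell) (insert c S) = zc z D cell c * wt (zc z D cell) S := by
      unfold wt; rw [Finset.prod_insert hcS]
    rw [e2, e3, e4, Finset.insert_idem]
    ring

/-- sums over the subsets of a disjoint union -/
theorem sum_split {L D : Finset α} (h : Disjoint L D) (F : Finset α → ℝ) :
    ∑ A ∈ (L ∪ D).powerset, F A = ∑ Q ∈ L.powerset, ∑ B ∈ D.powerset, F (Q ∪ B) := by
  rw [← Finset.sum_product']
  symm
  refine Finset.sum_bij' (fun x _ => x.1 ∪ x.2) (fun A _ => (A ∩ L, A ∩ D)) ?_ ?_ ?_ ?_ ?_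
  · rintro ⟨Q, B⟩ hx
    rw [Finset.mem_product, Finset.mem_powerset, Finset.mem_powerset] at hx
    rw [Finset.mem_powerset]
    exact Finset.union_subset_union hx.1 hx.2
  · intro A hA
    rw [Finset.mem_product, Finset.mem_powerset, Finset.mem_powerset]
    exact ⟨Finset.inter_subset_right, Finset.inter_subset_right⟩
  · rintro ⟨Q, B⟩ hx
    rw [Finset.mem_product, Finset.mem_powerset, Finset.mem_powerset] at hx
    have h1 : ∀ a, a ∈ Q → a ∈ L := fun a ha => hx.1 ha
    have h2 : ∀ a, a ∈ B → a ∈ D := fun a ha => hx.2 ha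
    have h3 : ∀ a, a ∈ L → a ∉ D := fun a ha => Finset.disjoint_left.mp h ha
    ext a <;> simp only [Finset.mem_inter, Finset.mem_union]
    · have := h1 a; have := h2 a; have := h3 a; tauto
    · have := h1 a; have := h2 a; have := h3 a; tauto
  · intro A hA
    rw [Finset.mem_powerset] at hA
    ext a
    simp only [Finset.mem_union, Finset.mem_inter]
    have : a ∈ A → a ∈ L ∨ a ∈ D := fun ha => Finset.mem_union.mp (hA ha)
    tauto
  · intro x _; rfl

theorem wt_union {z : α → ℝ} {Q B : Finset α} (h : Disjoint Q B) :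
    wt z (Q ∪ B) = wt z Q * wt z B := by
  unfold wt; exact Finset.prod_union h

theorem sum_wt_powerset (z : α → ℝ) (L : Finset α) :
    ∑ Q ∈ L.powerset, wt z Q = ∏ a ∈ L, (1 + z a) := by
  unfold wt
  rw [Finset.prod_one_add]

theorem sum_wt_sub (z : α → ℝ) (L : Finset α) (p : α → Prop) :
    ∑ Q ∈ L.powerset, (if ∀ a ∈ Q, p a then wt z Q else 0) = ∏ a ∈ L.filter p, (1 + z a) := by
  rw [← sum_wt_powerset, ← Finset.sum_filter]
  congr 1
  ext Q
  simp only [Finset.mem_filter, Finset.mem_powerset, Finset.subset_iff]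
  constructor
  · rintro ⟨h1, h2⟩ a ha
    exact ⟨h1 ha, h2 a ha⟩
  · intro h
    exact ⟨fun a ha => (h ha).1, fun a ha => (h ha).2⟩

theorem prod_mul_one_sub_le (z : α → ℝ) (hz : ∀ a, 0 ≤ z a) (s : Finset α) :
    (∏ a ∈ s, (1 + z a)) * (1 - ∑ a ∈ s, z a) ≤ 1 := by
  induction s using Finset.induction_on with
  | empty => simp
  | insert x s hx ih =>
    rw [Finset.prod_insert hx, Finset.sum_insert hx]
    have hP : 0 ≤ ∏ a ∈ s, (1 + z a) := Finset.prod_nonneg fun a _ => by have := hz a; linarith
    have hS : 0 ≤ ∑ a ∈ s, z a := Finset.sum_nonneg fun a _ => hz a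
    have hx0 := hz x
    have h1 : (1 + z x) * (∏ a ∈ s, (1 + z a)) * (1 - (z x + ∑ a ∈ s, z a))
        = (∏ a ∈ s, (1 + z a)) * (1 - ∑ a ∈ s, z a)
          - (∏ a ∈ s, (1 + z a)) * (z x * (∑ a ∈ s, z a) + z x ^ 2) := by ring
    rw [h1]
    have h2 : 0 ≤ (∏ a ∈ s, (1 + z a)) * (z x * (∑ a ∈ s, z a) + z x ^ 2) :=
      mul_nonneg hP (by positivity)
    linarith

end

end Pool.Agent.Y514.SC
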