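import Mathlib
import Pool.Agent.Y514.SC.Main
import Pool.Agent.Y514.SC.Push
import Pool.Agent.Y514.SC.Mat

set_option autoImplicit false

namespace Pool.Agent.Y514.SC

open Finset
open scoped Classical

section
variable {α : Type*} [Fintype α] (M : Matroid α) (z : α → ℝ) (e f : α)

/-- everything except `e`, `f` -/
noncomputable def GG : Finset α := (Finset.univ.erase e).erase f

noncomputable def s11 : ℝ := ∑ A ∈ (GG e f).powerset,
  if M.Spanning ((insert e (insert f A) : Finset α) : Set α) then wt z A else 0
noncomputable def s10 : ℝ := ∑ A ∈ (GG e f).powerset,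
  if M.Spanning ((insert e A : Finset α) : Set α) then wt z A else 0
noncomputable def s01 : ℝ := ∑ A ∈ (GG e f).powerset,
  if M.Spanning ((insert f A : Finset α) : Set α) then wt z A else 0
noncomputable def s00 : ℝ := ∑ A ∈ (GG e f).powerset,
  if M.Spanning (A : Set α) then wt z A else 0

noncomputable def LL : Finset α := (GG e f).filter (fun a => a ∈ M.closure {e, f})
noncomputable def DD : Finset α := (GG e f).filter (fun a => a ∉ M.closure {e, f})

noncomputable def cell (a : α) : Set α × Set α := (M.closure (insert a {e}), M.closure (insert a {f}))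

theorem LL_DD : GG e f = LL M e f ∪ DD M e f := by
  unfold LL DD; rw [Finset.filter_union_filter_not_eq]

theorem LL_DD_disj : Disjoint (LL M e f) (DD M e f) := by
  unfold LL DD; exact Finset.disjoint_filter_filter_not _ _ _

/-- indicator functions of the closure types of a subset of `cl{e,f}` -/
noncomputable def qi (x : α) (Q : Finset α) : ℝ := if ∀ a ∈ Q, a ∈ M.closure {x} then 1 else 0
noncomputable def q0 (Q : Finset α) : ℝ := if ∀ a ∈ Q, a ∈ M.closure ∅ then 1 else 0
def isq (Q : Finset α) : Prop :=
  ∃ q ∈ Q, (q ∉ M.closure {e} ∧ q ∉ M.closure {f}) ∧ ∀ a ∈ Q, a ≠ q → a ∈ M.closure ∅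
noncomputable def qq (Q : Finset α) : ℝ := if isq M e f Q then 1 else 0

variable {M z e f}

theorem dbl_eval (u : Finset α → ℝ) (F : Finset (Set α × Set α) → ℝ) :
    ∑ Q ∈ (LL M e f).powerset, ∑ B ∈ (DD M e f).powerset,
      (u Q * F (B.image (cell M e f))) * (wt z Q * wt z B)
    = (∑ Q ∈ (LL M e f).powerset, u Q * wt z Q)
      * (∑ S : Finset (Set α × Set α), F S * wt (zc z (DD M e f) (cell M e f)) S) := by
  rw [← push z (cell M e f) (DD M e f) F, Finset.sum_mul_sum]
  refine Finset.sum_congr rfl fun Q _ => Finset.sum_congr rfl fun B _ => ?_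
  ring

/-- comparing a sum over subsets of `G` with a double sum -/
theorem le_dbl (hz : ∀ a, 0 ≤ z a) (φ : Finset α → Prop) (g : Finset α → Finset α → ℝ)
    (h : ∀ Q ∈ (LL M e f).powerset, ∀ B ∈ (DD M e f).powerset,
      (if φ (Q ∪ B) then (1 : ℝ) else 0) ≤ g Q B) :
    ∑ A ∈ (GG e f).powerset, (if φ A then wt z A else 0)
      ≤ ∑ Q ∈ (LL M e f).powerset, ∑ B ∈ (DD M e f).powerset, g Q B * (wt z Q * wt z B) := by
  rw [LL_DD M e f, sum_split (LL_DD_disj M e f)]
  refine Finset.sum_le_sum fun Q hQ => Finset.sum_le_sum fun B hB => ?_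
  have hd : Disjoint Q B := Finset.disjoint_of_subset_left (Finset.mem_powerset.mp hQ)
    (Finset.disjoint_of_subset_right (Finset.mem_powerset.mp hB) (LL_DD_disj M e f))
  have hw : 0 ≤ wt z Q * wt z B := mul_nonneg (wt_nonneg hz _) (wt_nonneg hz _)
  have h1 := mul_le_mul_of_nonneg_right (h Q hQ B hB) hw
  refine le_trans (le_of_eq ?_) h1
  rw [wt_union hd]
  split_ifs <;> simp

theorem dbl_le (hz : ∀ a, 0 ≤ z a) (φ : Finset α → Prop) (g : Finset α → Finset α → ℝ)
    (h : ∀ Q ∈ (LL M e f).powerset, ∀ B ∈ (DD M e f).powerset,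
      g Q B ≤ (if φ (Q ∪ B) then (1 : ℝ) else 0)) :
    ∑ Q ∈ (LL M e f).powerset, ∑ B ∈ (DD M e f).powerset, g Q B * (wt z Q * wt z B)
      ≤ ∑ A ∈ (GG e f).powerset, (if φ A then wt z A else 0) := by
  rw [LL_DD M e f, sum_split (LL_DD_disj M e f)]
  refine Finset.sum_le_sum fun Q hQ => Finset.sum_le_sum fun B hB => ?_
  have hd : Disjoint Q B := Finset.disjoint_of_subset_left (Finset.mem_powerset.mp hQ)
    (Finset.disjoint_of_subset_right (Finset.mem_powerset.mp hB) (LL_DD_disj M e f))
  have hw : 0 ≤ wt z Q * wt z B := mul_nonneg (wt_nonneg hz _) (wt_nonneg hz _)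
  have h1 := mul_le_mul_of_nonneg_right (h Q hQ B hB) hw
  refine le_trans h1 (le_of_eq ?_)
  rw [wt_union hd]
  split_ifs <;> simp

noncomputable def nE (S : Finset (Set α × Set α)) : ℝ := if S.Nonempty then 1 else 0
noncomputable def rw' (S : Finset (Set α × Set α)) : ℝ := if S.Nonempty ∧ rowC S then 1 else 0
noncomputable def co' (S : Finset (Set α × Set α)) : ℝ := if S.Nonempty ∧ colC S then 1 else 0
noncomputable def on' (S : Finset (Set α × Set α)) : ℝ := if S.card = 1 then 1 else 0
noncomputable def dp' (S : Finset (Set α × Set α)) : ℝ := if disjP S then 1 else 0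

/-- the pure logic of the bound for `s00` -/
theorem logic_bound (S : Finset (Set α × Set α)) (qe qf q0' qq' : Prop)
    (h0 : q0' ↔ qe ∧ qf) (h1 : qq' → ¬ qe ∧ ¬ qf) :
    0 ≤ nE S - (if qe then (1 : ℝ) else 0) * rw' S - (if qf then (1 : ℝ) else 0) * co' S
      + (if q0' then (1 : ℝ) else 0) * on' S - (if q0' then (1 : ℝ) else 0) * dp' S
      - (if qq' then (1 : ℝ) else 0) * on' S := by
  unfold nE rw' co' on' dp'
  by_cases hS : S.Nonempty
  · by_cases hr : rowC S
    · have hd : ¬ disjP S := fun hd => hd.not_rowC hr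
      by_cases hc : colC S
      · have hcard : S.card = 1 := by
          obtain ⟨x, hx⟩ := hS
          rw [Finset.card_eq_one]
          refine ⟨x, ?_⟩
          ext y
          rw [Finset.mem_singleton]
          constructor
          · intro hy; exact Prod.ext (hr y hy x hx) (hc y hy x hx)
          · rintro rfl; exact hx
        by_cases a : qe <;> by_cases b : qf <;> by_cases c : qq' <;>
          simp_all
      · have hcard : S.card ≠ 1 := by
          intro h
          obtain ⟨x, rfl⟩ := Finset.card_eq_one.mp h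
          exact hc (by intro c hc d hd; rw [Finset.mem_singleton] at hc hd; rw [hc, hd])
        by_cases a : qe <;> simp [hS, hr, hc, hd, hcard, a]
    · have hcard : S.card ≠ 1 := by
        intro h
        obtain ⟨x, rfl⟩ := Finset.card_eq_one.mp h
        exact hr (by intro c hc d hd; rw [Finset.mem_singleton] at hc hd; rw [hc, hd])
      by_cases hc : colC S
      · have hd : ¬ disjP S := fun hd => hd.not_colC hc
        by_cases a : qf <;> simp [hS, hr, hc, hd, hcard, a]
      · by_cases hd : disjP S
        · by_cases a : q0' <;> simp [hS, hr, hc, hd, hcard, a]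
        · simp [hS, hr, hc, hd, hcard]
  · have hcard : S.card ≠ 1 := by
      intro h; exact hS (Finset.card_pos.mp (by omega))
    have hd : ¬ disjP S := by
      intro hd; have := hd.card; exact hS (Finset.card_pos.mp (by omega))
    simp [hS, hcard, hd]

section rank3
variable (hz : ∀ a, 0 ≤ z a) (hE : M.E = Set.univ) (hr : M.eRank = 3)
  (hef : M.Indep {e, f}) (hne : e ≠ f)

theorem memLL {a : α} (h : a ∈ LL M e f) : a ∈ M.closure {e, f} := (Finset.mem_filter.mp h).2
theorem memDD {a : α} (h : a ∈ DD M e f) : a ∉ M.closure {e, f} := (Finset.mem_filter.mp h).2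

include hE hr hef hne

theorem p11 (Q : Finset α) (hQ : Q ∈ (LL M e f).powerset) (B : Finset α)
    (hB : B ∈ (DD M e f).powerset) :
    (if M.Spanning ((insert e (insert f (Q ∪ B)) : Finset α) : Set α) then (1 : ℝ) else 0)
      ≤ 1 * nE (B.image (cell M e f)) := by
  unfold nE
  by_cases hBn : B = ∅
  · subst hBn
    have : ¬ M.Spanning ((insert e (insert f (Q ∪ ∅)) : Finset α) : Set α) := by
      refine not_spanning_of_subset (Y := {e, f}) ?_ ?_
      · intro x hx
        rw [Finset.mem_coe, Finset.mem_insert, Finset.mem_insert, Finset.union_empty] at hx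
        rcases hx with rfl | rfl | hx
        · exact M.mem_closure_of_mem (by simp) (by rw [hE]; exact Set.subset_univ _)
        · exact M.mem_closure_of_mem (by simp) (by rw [hE]; exact Set.subset_univ _)
        · exact memLL (Finset.mem_powerset.mp hQ hx)
      · refine lt_of_le_of_lt (encard_pair_le e f) ?_
        rw [hr]; norm_num
    rw [if_neg this]
    simp
  · have : (B.image (cell M e f)).Nonempty := by
      rw [Finset.image_nonempty]; exact Finset.nonempty_iff_ne_empty.mpr hBn
    rw [if_pos this]
    split_ifs <;> norm_num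

theorem p10 (Q : Finset α) (hQ : Q ∈ (LL M e f).powerset) (B : Finset α)
    (hB : B ∈ (DD M e f).powerset) :
    1 * nE (B.image (cell M e f)) - qi M e Q * rw' (B.image (cell M e f))
      ≤ (if M.Spanning ((insert e (Q ∪ B) : Finset α) : Set α) then (1 : ℝ) else 0) := by
  by_cases hBn : B.Nonempty
  · by_cases hcond : (∀ a ∈ Q, a ∈ M.closure {e}) ∧ rowC (B.image (cell M e f))
    · have h1 : nE (B.image (cell M e f)) = 1 := by
        unfold nE; rw [if_pos (Finset.image_nonempty.mpr hBn)]
      have h2 : qi M e Q = 1 := by unfold qi; rw [if_pos hcond.1]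
      have h3 : rw' (B.image (cell M e f)) = 1 := by
        unfold rw'; rw [if_pos ⟨Finset.image_nonempty.mpr hBn, hcond.2⟩]
      rw [h1, h2, h3]
      split_ifs <;> norm_num
    · have hsp : M.Spanning ((insert e (Q ∪ B) : Finset α) : Set α) := by
        refine span_e hE hr hef hne (by simp) ?_
        obtain ⟨g, hg⟩ := hBn
        rw [not_and_or] at hcond
        rcases hcond with h | h
        · push Not at h
          obtain ⟨q, hq, hq'⟩ := h
          refine Or.inl ⟨q, by simp [hq], memLL (Finset.mem_powerset.mp hQ hq), hq', g,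
            by simp [hg], memDD (Finset.mem_powerset.mp hB hg)⟩
        · unfold rowC at h
          push Not at h
          obtain ⟨c, hc, d, hd, hcd⟩ := h
          obtain ⟨b, hb, rfl⟩ := Finset.mem_image.mp hc
          obtain ⟨b', hb', rfl⟩ := Finset.mem_image.mp hd
          exact Or.inr ⟨b, by simp [hb], b', by simp [hb'],
            memDD (Finset.mem_powerset.mp hB hb), memDD (Finset.mem_powerset.mp hB hb'), hcd⟩
      rw [if_pos hsp]
      have h1 : nE (B.image (cell M e f)) ≤ 1 := by unfold nE; split_ifs <;> norm_num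
      have h2 : 0 ≤ qi M e Q * rw' (B.image (cell M e f)) := by
        unfold qi rw'; split_ifs <;> norm_num
      linarith
  · rw [Finset.not_nonempty_iff_eq_empty] at hBn
    subst hBn
    have h1 : nE ((∅ : Finset α).image (cell M e f)) = 0 := by unfold nE; simp
    have h2 : rw' ((∅ : Finset α).image (cell M e f)) = 0 := by unfold rw'; simp
    rw [h1, h2]
    split_ifs <;> norm_num

theorem p01 (Q : Finset α) (hQ : Q ∈ (LL M e f).powerset) (B : Finset α)
    (hB : B ∈ (DD M e f).powerset) :
    1 * nE (B.image (cell M e f)) - qi M f Q * co' (B.image (cell M e f))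
      ≤ (if M.Spanning ((insert f (Q ∪ B) : Finset α) : Set α) then (1 : ℝ) else 0) := by
  have hfe : ({f, e} : Set α) = {e, f} := Set.pair_comm f e
  have hfe' : M.Indep {f, e} := by rw [hfe]; exact hef
  by_cases hBn : B.Nonempty
  · by_cases hcond : (∀ a ∈ Q, a ∈ M.closure {f}) ∧ colC (B.image (cell M e f))
    · have h1 : nE (B.image (cell M e f)) = 1 := by
        unfold nE; rw [if_pos (Finset.image_nonempty.mpr hBn)]
      have h2 : qi M f Q = 1 := by unfold qi; rw [if_pos hcond.1]
      have h3 : co' (B.image (cell M e f)) = 1 := by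
        unfold co'; rw [if_pos ⟨Finset.image_nonempty.mpr hBn, hcond.2⟩]
      rw [h1, h2, h3]
      split_ifs <;> norm_num
    · have hsp : M.Spanning ((insert f (Q ∪ B) : Finset α) : Set α) := by
        refine span_e hE hr hfe' hne.symm (by simp) ?_
        rw [hfe]
        obtain ⟨g, hg⟩ := hBn
        rw [not_and_or] at hcond
        rcases hcond with h | h
        · push Not at h
          obtain ⟨q, hq, hq'⟩ := h
          refine Or.inl ⟨q, by simp [hq], memLL (Finset.mem_powerset.mp hQ hq), hq', g,
            by simp [hg], memDD (Finset.mem_powerset.mp hB hg)⟩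
        · unfold colC at h
          push Not at h
          obtain ⟨c, hc, d, hd, hcd⟩ := h
          obtain ⟨b, hb, rfl⟩ := Finset.mem_image.mp hc
          obtain ⟨b', hb', rfl⟩ := Finset.mem_image.mp hd
          exact Or.inr ⟨b, by simp [hb], b', by simp [hb'],
            memDD (Finset.mem_powerset.mp hB hb), memDD (Finset.mem_powerset.mp hB hb'), hcd⟩
      rw [if_pos hsp]
      have h1 : nE (B.image (cell M e f)) ≤ 1 := by unfold nE; split_ifs <;> norm_num
      have h2 : 0 ≤ qi M f Q * co' (B.image (cell M e f)) := by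
        unfold qi co'; split_ifs <;> norm_num
      linarith
  · rw [Finset.not_nonempty_iff_eq_empty] at hBn
    subst hBn
    have h1 : nE ((∅ : Finset α).image (cell M e f)) = 0 := by unfold nE; simp
    have h2 : co' ((∅ : Finset α).image (cell M e f)) = 0 := by unfold co'; simp
    rw [h1, h2]
    split_ifs <;> norm_num

omit hr in
theorem cl_inter {a : α} : a ∈ M.closure ∅ ↔ a ∈ M.closure {e} ∧ a ∈ M.closure {f} := by
  have h : M.Indep ({e} ∪ {f}) := by
    have : ({e} ∪ {f} : Set α) = {e, f} := Set.singleton_union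
    rw [this]; exact hef
  have h1 := h.closure_inter_eq_inter_closure
  have h2 : ({e} ∩ {f} : Set α) = ∅ := by
    ext x; simp only [Set.mem_inter_iff, Set.mem_singleton_iff, Set.mem_empty_iff_false, iff_false]
    rintro ⟨h1, h2⟩; exact hne (h1.symm.trans h2)
  rw [h2] at h1
  rw [h1]; rfl

theorem p00 (Q : Finset α) (hQ : Q ∈ (LL M e f).powerset) (B : Finset α)
    (hB : B ∈ (DD M e f).powerset) :
    (if M.Spanning ((Q ∪ B : Finset α) : Set α) then (1 : ℝ) else 0)
      ≤ 1 * nE (B.image (cell M e f)) - qi M e Q * rw' (B.image (cell M e f))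
        - qi M f Q * co' (B.image (cell M e f)) + q0 M Q * on' (B.image (cell M e f))
        - q0 M Q * dp' (B.image (cell M e f)) - qq M e f Q * on' (B.image (cell M e f)) := by
  have hE' : ∀ X : Set α, X ⊆ M.E := fun X => by rw [hE]; exact Set.subset_univ _
  have h0 : (∀ a ∈ Q, a ∈ M.closure ∅) ↔
      (∀ a ∈ Q, a ∈ M.closure {e}) ∧ (∀ a ∈ Q, a ∈ M.closure {f}) := by
    constructor
    · intro h
      exact ⟨fun a ha => ((cl_inter hE hef hne).mp (h a ha)).1,
        fun a ha => ((cl_inter hE hef hne).mp (h a ha)).2⟩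
    · rintro ⟨h1, h2⟩ a ha
      exact (cl_inter hE hef hne).mpr ⟨h1 a ha, h2 a ha⟩
  have h1 : isq M e f Q → ¬ (∀ a ∈ Q, a ∈ M.closure {e}) ∧ ¬ (∀ a ∈ Q, a ∈ M.closure {f}) := by
    rintro ⟨q, hq, ⟨hqe, hqf⟩, _⟩
    exact ⟨fun h => hqe (h q hq), fun h => hqf (h q hq)⟩
  have hlog := logic_bound (B.image (cell M e f)) _ _ _ _ h0 h1
  by_cases hsp : M.Spanning ((Q ∪ B : Finset α) : Set α)
  · rw [if_pos hsp]
    -- `B` is nonempty
    have hBn : B.Nonempty := by
      rw [Finset.nonempty_iff_ne_empty]
      rintro rfl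
      refine not_spanning_of_subset (Y := {e, f}) ?_ ?_ hsp
      · intro x hx
        rw [Finset.mem_coe, Finset.union_empty] at hx
        exact memLL (Finset.mem_powerset.mp hQ hx)
      · refine lt_of_le_of_lt (encard_pair_le e f) ?_
        rw [hr]; norm_num
    have hlt : ∀ a b : α, ({a, b} : Set α).encard < M.eRank := by
      intro a b
      refine lt_of_le_of_lt (encard_pair_le a b) ?_
      rw [hr]; norm_num
    obtain ⟨g0, hg0⟩ := hBn
    have hmem : ∀ b ∈ B, b ∉ M.closure {e, f} := fun b hb =>
      memDD (Finset.mem_powerset.mp hB hb)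
    -- row case impossible
    have hN2 : ¬ ((∀ a ∈ Q, a ∈ M.closure {e}) ∧ rowC (B.image (cell M e f))) := by
      rintro ⟨hq, hrow⟩
      refine not_spanning_of_subset (Y := {g0, e}) ?_ (hlt _ _) hsp
      intro x hx
      rw [Finset.mem_coe, Finset.mem_union] at hx
      rcases hx with hx | hx
      · exact M.closure_subset_closure (by simp) (hq x hx)
      · have := hrow (cell M e f x) (Finset.mem_image_of_mem _ hx) (cell M e f g0)
          (Finset.mem_image_of_mem _ hg0)
        have h' : M.closure (insert x {e}) = M.closure (insert g0 {e}) := this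
        rw [← show M.closure (insert x {e}) = M.closure {g0, e} from h']
        exact M.mem_closure_of_mem (by simp) (hE' _)
    have hN3 : ¬ ((∀ a ∈ Q, a ∈ M.closure {f}) ∧ colC (B.image (cell M e f))) := by
      rintro ⟨hq, hcol⟩
      refine not_spanning_of_subset (Y := {g0, f}) ?_ (hlt _ _) hsp
      intro x hx
      rw [Finset.mem_coe, Finset.mem_union] at hx
      rcases hx with hx | hx
      · exact M.closure_subset_closure (by simp) (hq x hx)
      · have := hcol (cell M e f x) (Finset.mem_image_of_mem _ hx) (cell M e f g0)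
          (Finset.mem_image_of_mem _ hg0)
        have h' : M.closure (insert x {f}) = M.closure (insert g0 {f}) := this
        rw [← show M.closure (insert x {f}) = M.closure {g0, f} from h']
        exact M.mem_closure_of_mem (by simp) (hE' _)
    have hpar : ∀ g ∈ B, ∀ b ∈ B, cell M e f b = cell M e f g → b ∈ M.closure {g} := by
      intro g hg b hb hcell
      exact parallel hE hr hef hne (hmem g hg) (congrArg Prod.fst hcell)
        (congrArg Prod.snd hcell)
    have hN4 : ¬ ((∀ a ∈ Q, a ∈ M.closure ∅) ∧ disjP (B.image (cell M e f))) := by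
      rintro ⟨hq, p, q, _, _, hpq⟩
      have hp : p ∈ B.image (cell M e f) := by rw [hpq]; simp
      have hq' : q ∈ B.image (cell M e f) := by rw [hpq]; simp
      obtain ⟨g, hg, hgp⟩ := Finset.mem_image.mp hp
      obtain ⟨h, hh, hhq⟩ := Finset.mem_image.mp hq'
      refine not_spanning_of_subset (Y := {g, h}) ?_ (hlt _ _) hsp
      intro x hx
      rw [Finset.mem_coe, Finset.mem_union] at hx
      rcases hx with hx | hx
      · exact M.closure_subset_closure (by simp) (hq x hx)
      · have hxc : cell M e f x ∈ B.image (cell M e f) := Finset.mem_image_of_mem _ hx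
        rw [hpq, Finset.mem_insert, Finset.mem_singleton] at hxc
        rcases hxc with hxc | hxc
        · exact M.closure_subset_closure (by simp) (hpar g hg x hx (hxc.trans hgp.symm))
        · exact M.closure_subset_closure (by simp) (hpar h hh x hx (hxc.trans hhq.symm))
    have hN5 : ¬ (isq M e f Q ∧ (B.image (cell M e f)).card = 1) := by
      rintro ⟨⟨q, hqQ, _, hq⟩, hcard⟩
      obtain ⟨c, hc⟩ := Finset.card_eq_one.mp hcard
      have hg0c : cell M e f g0 = c := by
        have := Finset.mem_image_of_mem (cell M e f) hg0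
        rw [hc, Finset.mem_singleton] at this; exact this
      refine not_spanning_of_subset (Y := {q, g0}) ?_ (hlt _ _) hsp
      intro x hx
      rw [Finset.mem_coe, Finset.mem_union] at hx
      rcases hx with hx | hx
      · by_cases hxq : x = q
        · rw [hxq]; exact M.mem_closure_of_mem (by simp) (hE' _)
        · exact M.closure_subset_closure (by simp) (hq x hx hxq)
      · have hxc : cell M e f x = c := by
          have := Finset.mem_image_of_mem (cell M e f) hx
          rw [hc, Finset.mem_singleton] at this; exact this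
        exact M.closure_subset_closure (by simp) (hpar g0 hg0 x hx (hxc.trans hg0c.symm))
    have hSne : (B.image (cell M e f)).Nonempty := ⟨_, Finset.mem_image_of_mem _ hg0⟩
    have t1 : nE (B.image (cell M e f)) = 1 := by unfold nE; rw [if_pos hSne]
    have t2 : qi M e Q * rw' (B.image (cell M e f)) = 0 := by
      unfold qi rw'
      by_cases hq : ∀ a ∈ Q, a ∈ M.closure {e}
      · rw [if_neg (fun h : (B.image (cell M e f)).Nonempty ∧ rowC (B.image (cell M e f)) =>
          hN2 ⟨hq, h.2⟩)]; simp
      · rw [if_neg hq]; simp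
    have t3 : qi M f Q * co' (B.image (cell M e f)) = 0 := by
      unfold qi co'
      by_cases hq : ∀ a ∈ Q, a ∈ M.closure {f}
      · rw [if_neg (fun h : (B.image (cell M e f)).Nonempty ∧ colC (B.image (cell M e f)) =>
          hN3 ⟨hq, h.2⟩)]; simp
      · rw [if_neg hq]; simp
    have t4 : q0 M Q * dp' (B.image (cell M e f)) = 0 := by
      unfold q0 dp'
      by_cases hq : ∀ a ∈ Q, a ∈ M.closure ∅
      · rw [if_neg (fun h : disjP (B.image (cell M e f)) => hN4 ⟨hq, h⟩)]; simp
      · rw [if_neg hq]; simp
    have t5 : qq M e f Q * on' (B.image (cell M e f)) = 0 := by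
      unfold qq on'
      by_cases hq : isq M e f Q
      · rw [if_neg (fun h : (B.image (cell M e f)).card = 1 => hN5 ⟨hq, h⟩)]; simp
      · rw [if_neg hq]; simp
    have t6 : 0 ≤ q0 M Q * on' (B.image (cell M e f)) := by
      unfold q0 on'; split_ifs <;> norm_num
    rw [t1, t2, t3, t4, t5]
    linarith
  · rw [if_neg hsp]
    have : (1 : ℝ) * nE (B.image (cell M e f)) = nE (B.image (cell M e f)) := one_mul _
    rw [this]
    simp only [qi, q0, qq]
    convert hlog

end rank3

end

end Pool.Agent.Y514.SC
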