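import Mathlib
import Pool.Agent.Y514.SC.Case3

set_option autoImplicit false

namespace Pool.Agent.Y514.SC

open Finset
open scoped Classical

section num

theorem num3 {a00 a11 a10 a01 X0 Xe Xf Xl Xq Y U T A B Z P : ℝ}
    (h00 : 0 ≤ a00) (h00' : a00 ≤ X0 * T - Xe * A - Xf * B + Xl * Z - Xl * P - Xq * Z)
    (h11' : a11 ≤ X0 * T) (h10 : X0 * T - Xe * A ≤ a10) (h01 : X0 * T - Xf * B ≤ a01)
    (hm : T * (Z - P) ≤ A * B) (hA0 : 0 ≤ A) (hA : A ≤ T) (hB0 : 0 ≤ B) (hB : B ≤ T)
    (hXe0 : 0 ≤ Xe) (hXe : Xe ≤ X0) (hXf0 : 0 ≤ Xf) (hXf : Xf ≤ X0)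
    (hZ : 0 ≤ Z) (hP : 0 ≤ P) (hprod : X0 * Xl = Xe * Xf * Y) (hXq : Xl * U ≤ Xq)
    (hY1 : 1 ≤ Y) (hYU : Y * (1 - U) ≤ 1) : a11 * a00 ≤ a10 * a01 := by
  have hT : 0 ≤ T := hA0.trans hA
  have hX0 : 0 ≤ X0 := hXe0.trans hXe
  have hXT : 0 ≤ X0 * T := mul_nonneg hX0 hT
  have e1 : a11 * a00 ≤ X0 * T * a00 := mul_le_mul_of_nonneg_right h11' h00
  have e2 : X0 * T * a00 ≤ X0 * T * (X0 * T - Xe * A - Xf * B + Xl * Z - Xl * P - Xq * Z) :=
    mul_le_mul_of_nonneg_left h00' hXT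
  have n1 : 0 ≤ X0 * T - Xe * A := by
    have := mul_le_mul hXe hA hA0 hX0; linarith
  have n2 : 0 ≤ X0 * T - Xf * B := by
    have := mul_le_mul hXf hB hB0 hX0; linarith
  have e3 : (X0 * T - Xe * A) * (X0 * T - Xf * B) ≤ a10 * a01 :=
    mul_le_mul h10 h01 n2 (n1.trans h10)
  have hAB : 0 ≤ A * B := mul_nonneg hA0 hB0
  have hef : 0 ≤ Xe * Xf := mul_nonneg hXe0 hXf0
  have key : Y * (T * (Z - P - U * Z)) ≤ A * B := by
    rcases le_or_gt (Z - P - U * Z) 0 with hneg | hpos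
    · have h1 : Y * (T * (Z - P - U * Z)) ≤ 0 :=
        mul_nonpos_of_nonneg_of_nonpos (by linarith) (mul_nonpos_of_nonneg_of_nonpos hT hneg)
      linarith
    · have h1 : Y * (Z - P - U * Z) ≤ Z - P := by
        have a1 := mul_le_mul_of_nonneg_right hYU hZ
        have a2 := mul_le_mul_of_nonneg_right hY1 hP
        nlinarith
      have h2 : T * (Y * (Z - P - U * Z)) ≤ T * (Z - P) := mul_le_mul_of_nonneg_left h1 hT
      have h3 : Y * (T * (Z - P - U * Z)) = T * (Y * (Z - P - U * Z)) := by ring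
      linarith
  have e4 : X0 * T * (X0 * T - Xe * A - Xf * B + Xl * Z - Xl * P - Xq * Z)
      ≤ (X0 * T - Xe * A) * (X0 * T - Xf * B) := by
    have h1 : 0 ≤ X0 * T * ((Xq - Xl * U) * Z) :=
      mul_nonneg hXT (mul_nonneg (by linarith) hZ)
    have h2 : Xe * Xf * (Y * (T * (Z - P - U * Z))) ≤ Xe * Xf * (A * B) :=
      mul_le_mul_of_nonneg_left key hef
    have h3 : Xe * Xf * (Y * (T * (Z - P - U * Z))) = X0 * Xl * (T * (Z - P - U * Z)) := by
      rw [hprod]; ring
    nlinarith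
  linarith

theorem num2 {a00 a11 a10 a01 X0 Xe Xf Xl Xq Y U : ℝ}
    (h00 : 0 ≤ a00) (h00' : a00 ≤ X0 - Xe - Xf + Xl - Xq)
    (h11' : a11 ≤ X0) (h10 : X0 - Xe ≤ a10) (h01 : X0 - Xf ≤ a01)
    (hXe0 : 0 ≤ Xe) (hXe : Xe ≤ X0) (hXf0 : 0 ≤ Xf) (hXf : Xf ≤ X0)
    (hprod : X0 * Xl = Xe * Xf * Y) (hXq : Xl * U ≤ Xq)
    (hYU : Y * (1 - U) ≤ 1) : a11 * a00 ≤ a10 * a01 := by
  have hX0 : 0 ≤ X0 := hXe0.trans hXe
  have e1 : a11 * a00 ≤ X0 * a00 := mul_le_mul_of_nonneg_right h11' h00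
  have e2 : X0 * a00 ≤ X0 * (X0 - Xe - Xf + Xl - Xq) := mul_le_mul_of_nonneg_left h00' hX0
  have e3 : (X0 - Xe) * (X0 - Xf) ≤ a10 * a01 :=
    mul_le_mul h10 h01 (by linarith) (by linarith)
  have hef : 0 ≤ Xe * Xf := mul_nonneg hXe0 hXf0
  have e4 : X0 * (X0 - Xe - Xf + Xl - Xq) ≤ (X0 - Xe) * (X0 - Xf) := by
    have h1 : 0 ≤ X0 * (Xq - Xl * U) := mul_nonneg hX0 (by linarith)
    have h2 : Xe * Xf * (Y * (1 - U)) ≤ Xe * Xf * 1 := mul_le_mul_of_nonneg_left hYU hef
    have h3 : Xe * Xf * (Y * (1 - U)) = X0 * Xl * (1 - U) := by rw [hprod]; ring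
    nlinarith
  linarith

end num

section
variable {α : Type*} [Fintype α] {M : Matroid α} {z : α → ℝ} {e f : α}

theorem sum_qi (L : Finset α) (x : α) :
    ∑ Q ∈ L.powerset, qi M x Q * wt z Q = ∏ a ∈ L.filter (fun a => a ∈ M.closure {x}), (1 + z a) := by
  rw [← sum_wt_sub z L (fun a => a ∈ M.closure {x})]
  refine Finset.sum_congr rfl fun Q _ => ?_
  unfold qi; split_ifs <;> simp

theorem sum_q0 (L : Finset α) :
    ∑ Q ∈ L.powerset, q0 M Q * wt z Q = ∏ a ∈ L.filter (fun a => a ∈ M.closure ∅), (1 + z a) := by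
  rw [← sum_wt_sub z L (fun a => a ∈ M.closure ∅)]
  refine Finset.sum_congr rfl fun Q _ => ?_
  unfold q0; split_ifs <;> simp

theorem X0Xl (L : Finset α)
    (h : ∀ a, a ∈ M.closure ∅ ↔ a ∈ M.closure {e} ∧ a ∈ M.closure {f}) :
    (∑ Q ∈ L.powerset, (1 : ℝ) * wt z Q) * (∑ Q ∈ L.powerset, q0 M Q * wt z Q)
      = (∑ Q ∈ L.powerset, qi M e Q * wt z Q) * (∑ Q ∈ L.powerset, qi M f Q * wt z Q)
        * ∏ a ∈ L.filter (fun a => a ∉ M.closure {e} ∧ a ∉ M.closure {f}), (1 + z a) := by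
  simp only [one_mul]
  rw [sum_wt_powerset, sum_q0, sum_qi, sum_qi]
  simp only [Finset.prod_filter, ← Finset.prod_mul_distrib]
  refine Finset.prod_congr rfl fun a _ => ?_
  have ha := h a
  by_cases h1 : a ∈ M.closure {e} <;> by_cases h2 : a ∈ M.closure {f} <;>
    simp only [h1, h2, and_true, and_false, iff_true, iff_false, true_and, false_and,
      not_true, not_false_iff] at ha ⊢ <;> simp [ha]

theorem Xq_ge (hz : ∀ a, 0 ≤ z a) (L : Finset α)
    (h : ∀ a, a ∈ M.closure ∅ ↔ a ∈ M.closure {e} ∧ a ∈ M.closure {f}) :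
    (∑ Q ∈ L.powerset, q0 M Q * wt z Q)
        * (∑ a ∈ L.filter (fun a => a ∉ M.closure {e} ∧ a ∉ M.closure {f}), z a)
      ≤ ∑ Q ∈ L.powerset, qq M e f Q * wt z Q := by
  set L0 := L.filter (fun a => a ∈ M.closure ∅) with hL0
  set Lq := L.filter (fun a => a ∉ M.closure {e} ∧ a ∉ M.closure {f}) with hLq
  have memL0 : ∀ a, a ∈ L0 ↔ a ∈ L ∧ a ∈ M.closure ∅ := by intro a; simp [hL0]
  have memLq : ∀ a, a ∈ Lq ↔ a ∈ L ∧ a ∉ M.closure {e} ∧ a ∉ M.closure {f} := by
    intro a; simp [hLq]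
  have hnot : ∀ a ∈ Lq, a ∉ M.closure ∅ := by
    intro a ha h0
    exact ((memLq a).mp ha).2.1 ((h a).mp h0).1
  rw [sum_q0, ← hL0, ← sum_wt_powerset, Finset.sum_mul_sum, ← Finset.sum_product']
  have hinj : Set.InjOn (fun x : Finset α × α => insert x.2 x.1)
      ((L0.powerset ×ˢ Lq : Finset (Finset α × α)) : Set (Finset α × α)) := by
    rintro ⟨Q, a⟩ hx ⟨Q', b⟩ hy hxy
    rw [Finset.mem_coe, Finset.mem_product, Finset.mem_powerset] at hx hy
    have hxy' : insert a Q = insert b Q' := hxy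
    have ha0 : a ∉ Q := fun h' => hnot a hx.2 ((memL0 a).mp (hx.1 h')).2
    have hb0 : b ∉ Q' := fun h' => hnot b hy.2 ((memL0 b).mp (hy.1 h')).2
    have hab : a = b := by
      have : a ∈ insert b Q' := by rw [← hxy']; simp
      rcases Finset.mem_insert.mp this with h' | h'
      · exact h'
      · exact absurd ((memL0 a).mp (hy.1 h')).2 (hnot a hx.2)
    subst hab
    have : Q = Q' := by rw [← Finset.erase_insert ha0, hxy', Finset.erase_insert hb0]
    rw [this]
  have h1 : ∑ x ∈ L0.powerset ×ˢ Lq, wt z x.1 * z x.2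
      = ∑ Q ∈ (L0.powerset ×ˢ Lq).image (fun x => insert x.2 x.1), wt z Q := by
    rw [Finset.sum_image hinj]
    refine Finset.sum_congr rfl fun x hx => ?_
    rw [Finset.mem_product, Finset.mem_powerset] at hx
    have ha0 : x.2 ∉ x.1 := fun h' => hnot x.2 hx.2 ((memL0 x.2).mp (hx.1 h')).2
    unfold wt
    rw [Finset.prod_insert ha0]; ring
  rw [h1]
  have h2 : ∑ Q ∈ L.powerset, qq M e f Q * wt z Q
      = ∑ Q ∈ L.powerset.filter (fun Q => isq M e f Q), wt z Q := by
    rw [Finset.sum_filter]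
    refine Finset.sum_congr rfl fun Q _ => ?_
    unfold qq; split_ifs <;> simp
  rw [h2]
  refine Finset.sum_le_sum_of_subset_of_nonneg ?_ (fun Q _ _ => wt_nonneg hz Q)
  intro Q hQ
  obtain ⟨⟨Q0, a⟩, hx, rfl⟩ := Finset.mem_image.mp hQ
  rw [Finset.mem_product, Finset.mem_powerset] at hx
  rw [Finset.mem_filter, Finset.mem_powerset]
  refine ⟨?_, a, by simp, ((memLq a).mp hx.2).2, ?_⟩
  · intro x hx'
    rcases Finset.mem_insert.mp hx' with h' | h'
    · rw [h']; exact ((memLq a).mp hx.2).1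
    · exact ((memL0 x).mp (hx.1 h')).1
  · intro x hx' hne
    rcases Finset.mem_insert.mp hx' with h' | h'
    · exact absurd h' hne
    · exact ((memL0 x).mp (hx.1 h')).2

theorem sum_qi_le (hz : ∀ a, 0 ≤ z a) (L : Finset α) (x : α) :
    ∑ Q ∈ L.powerset, qi M x Q * wt z Q ≤ ∑ Q ∈ L.powerset, (1 : ℝ) * wt z Q := by
  refine Finset.sum_le_sum fun Q _ => mul_le_mul_of_nonneg_right ?_ (wt_nonneg hz Q)
  unfold qi; split_ifs <;> norm_num

theorem sum_qi_nonneg (hz : ∀ a, 0 ≤ z a) (L : Finset α) (x : α) :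
    0 ≤ ∑ Q ∈ L.powerset, qi M x Q * wt z Q := by
  refine Finset.sum_nonneg fun Q _ => mul_nonneg ?_ (wt_nonneg hz Q)
  unfold qi; split_ifs <;> norm_num

theorem one_le_prod (hz : ∀ a, 0 ≤ z a) (s : Finset α) : 1 ≤ ∏ a ∈ s, (1 + z a) := by
  have h := Finset.prod_le_prod (s := s) (f := fun _ => (1 : ℝ)) (g := fun g => 1 + z g)
      (fun i _ => zero_le_one) (fun i _ => by have := hz i; linarith)
  simpa using h

theorem case3 (hz : ∀ a, 0 ≤ z a) (hE : M.E = Set.univ) (hr : M.eRank = 3)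
    (hef : M.Indep {e, f}) (hne : e ≠ f) :
    s11 M z e f * s00 M z e f ≤ s10 M z e f * s01 M z e f := by
  set ζ := zc z (DD M e f) (cell M e f) with hζ
  have hζ0 : ∀ c, 0 ≤ ζ c := zc_nonneg hz _ _
  have hinter : ∀ a, a ∈ M.closure ∅ ↔ a ∈ M.closure {e} ∧ a ∈ M.closure {f} :=
    fun a => cl_inter hE hef hne
  -- the four bounds
  have b11 : s11 M z e f ≤ (∑ Q ∈ (LL M e f).powerset, (1 : ℝ) * wt z Q)
      * (∑ S : Finset (Set α × Set α), nE S * wt ζ S) := by
    have h := le_dbl (M := M) (e := e) (f := f) hz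
      (fun A => M.Spanning ((insert e (insert f A) : Finset α) : Set α))
      (fun Q B => 1 * nE (B.image (cell M e f))) (p11 hE hr hef hne)
    rw [dbl_eval (fun _ => (1 : ℝ)) nE] at h
    exact h
  have b10 : (∑ Q ∈ (LL M e f).powerset, (1 : ℝ) * wt z Q)
      * (∑ S : Finset (Set α × Set α), nE S * wt ζ S)
      - (∑ Q ∈ (LL M e f).powerset, qi M e Q * wt z Q)
      * (∑ S : Finset (Set α × Set α), rw' S * wt ζ S) ≤ s10 M z e f := by
    have h := dbl_le (M := M) (e := e) (f := f) hz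
      (fun A => M.Spanning ((insert e A : Finset α) : Set α))
      (fun Q B => 1 * nE (B.image (cell M e f)) - qi M e Q * rw' (B.image (cell M e f)))
      (p10 hE hr hef hne)
    rw [← dbl_eval (fun _ => (1 : ℝ)) nE, ← dbl_eval (qi M e) rw']
    refine le_trans (le_of_eq ?_) h
    simp only [← Finset.sum_sub_distrib]
    refine Finset.sum_congr rfl fun Q _ => Finset.sum_congr rfl fun B _ => ?_
    ring
  have b01 : (∑ Q ∈ (LL M e f).powerset, (1 : ℝ) * wt z Q)
      * (∑ S : Finset (Set α × Set α), nE S * wt ζ S)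
      - (∑ Q ∈ (LL M e f).powerset, qi M f Q * wt z Q)
      * (∑ S : Finset (Set α × Set α), co' S * wt ζ S) ≤ s01 M z e f := by
    have h := dbl_le (M := M) (e := e) (f := f) hz
      (fun A => M.Spanning ((insert f A : Finset α) : Set α))
      (fun Q B => 1 * nE (B.image (cell M e f)) - qi M f Q * co' (B.image (cell M e f)))
      (p01 hE hr hef hne)
    rw [← dbl_eval (fun _ => (1 : ℝ)) nE, ← dbl_eval (qi M f) co']
    refine le_trans (le_of_eq ?_) h
    simp only [← Finset.sum_sub_distrib]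
    refine Finset.sum_congr rfl fun Q _ => Finset.sum_congr rfl fun B _ => ?_
    ring
  have b00 : s00 M z e f ≤ (∑ Q ∈ (LL M e f).powerset, (1 : ℝ) * wt z Q)
      * (∑ S : Finset (Set α × Set α), nE S * wt ζ S)
      - (∑ Q ∈ (LL M e f).powerset, qi M e Q * wt z Q)
      * (∑ S : Finset (Set α × Set α), rw' S * wt ζ S)
      - (∑ Q ∈ (LL M e f).powerset, qi M f Q * wt z Q)
      * (∑ S : Finset (Set α × Set α), co' S * wt ζ S)
      + (∑ Q ∈ (LL M e f).powerset, q0 M Q * wt z Q)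
      * (∑ S : Finset (Set α × Set α), on' S * wt ζ S)
      - (∑ Q ∈ (LL M e f).powerset, q0 M Q * wt z Q)
      * (∑ S : Finset (Set α × Set α), dp' S * wt ζ S)
      - (∑ Q ∈ (LL M e f).powerset, qq M e f Q * wt z Q)
      * (∑ S : Finset (Set α × Set α), on' S * wt ζ S) := by
    have h := le_dbl (M := M) (e := e) (f := f) hz
      (fun A => M.Spanning (A : Set α))
      (fun Q B => 1 * nE (B.image (cell M e f)) - qi M e Q * rw' (B.image (cell M e f))
        - qi M f Q * co' (B.image (cell M e f)) + q0 M Q * on' (B.image (cell M e f))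
        - q0 M Q * dp' (B.image (cell M e f)) - qq M e f Q * on' (B.image (cell M e f)))
      (p00 hE hr hef hne)
    rw [← dbl_eval (fun _ => (1 : ℝ)) nE, ← dbl_eval (qi M e) rw', ← dbl_eval (qi M f) co',
      ← dbl_eval (q0 M) on', ← dbl_eval (q0 M) dp', ← dbl_eval (qq M e f) on']
    refine le_trans h (le_of_eq ?_)
    simp only [← Finset.sum_sub_distrib, ← Finset.sum_add_distrib]
    refine Finset.sum_congr rfl fun Q _ => Finset.sum_congr rfl fun B _ => ?_
    ring
  have b00' : 0 ≤ s00 M z e f := by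
    unfold s00
    refine Finset.sum_nonneg fun A _ => ?_
    split_ifs
    · exact wt_nonneg hz A
    · exact le_refl _
  -- the matrix inequality
  have hm := matrix_ineq hζ0
  have c1 : (∑ U : Finset (Set α × Set α), if U.Nonempty then wt ζ U else 0)
      = ∑ S : Finset (Set α × Set α), nE S * wt ζ S :=
    Finset.sum_congr rfl fun S _ => by unfold nE; split_ifs <;> simp
  have c2 : (∑ U : Finset (Set α × Set α), if U.card = 1 then wt ζ U else 0)
      = ∑ S : Finset (Set α × Set α), on' S * wt ζ S :=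
    Finset.sum_congr rfl fun S _ => by unfold on'; split_ifs <;> simp
  have c3 : (∑ U : Finset (Set α × Set α), if disjP U then wt ζ U else 0)
      = ∑ S : Finset (Set α × Set α), dp' S * wt ζ S :=
    Finset.sum_congr rfl fun S _ => by unfold dp'; split_ifs <;> simp
  have c4 : (∑ U : Finset (Set α × Set α), if U.Nonempty ∧ rowC U then wt ζ U else 0)
      = ∑ S : Finset (Set α × Set α), rw' S * wt ζ S :=
    Finset.sum_congr rfl fun S _ => by unfold rw'; split_ifs <;> simp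
  have c5 : (∑ U : Finset (Set α × Set α), if U.Nonempty ∧ colC U then wt ζ U else 0)
      = ∑ S : Finset (Set α × Set α), co' S * wt ζ S :=
    Finset.sum_congr rfl fun S _ => by unfold co'; split_ifs <;> simp
  rw [c1, c2, c3, c4, c5] at hm
  have wn : ∀ S, 0 ≤ wt ζ S := wt_nonneg hζ0
  refine num3 (Y := ∏ a ∈ (LL M e f).filter (fun a => a ∉ M.closure {e} ∧ a ∉ M.closure {f}),
      (1 + z a))
    (U := ∑ a ∈ (LL M e f).filter (fun a => a ∉ M.closure {e} ∧ a ∉ M.closure {f}), z a)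
    b00' b00 b11 b10 b01 hm ?_ ?_ ?_ ?_ (sum_qi_nonneg hz _ _) (sum_qi_le hz _ _)
    (sum_qi_nonneg hz _ _) (sum_qi_le hz _ _) ?_ ?_ (X0Xl _ hinter) (Xq_ge hz _ hinter)
    (one_le_prod hz _) (prod_mul_one_sub_le z hz _)
  · refine Finset.sum_nonneg fun S _ => mul_nonneg ?_ (wn S)
    unfold rw'; split_ifs <;> norm_num
  · refine Finset.sum_le_sum fun S _ => mul_le_mul_of_nonneg_right ?_ (wn S)
    unfold rw' nE
    by_cases h : S.Nonempty
    · rw [if_pos h]; split_ifs <;> norm_num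
    · rw [if_neg h, if_neg (fun h' => h h'.1)]
  · refine Finset.sum_nonneg fun S _ => mul_nonneg ?_ (wn S)
    unfold co'; split_ifs <;> norm_num
  · refine Finset.sum_le_sum fun S _ => mul_le_mul_of_nonneg_right ?_ (wn S)
    unfold co' nE
    by_cases h : S.Nonempty
    · rw [if_pos h]; split_ifs <;> norm_num
    · rw [if_neg h, if_neg (fun h' => h h'.1)]
  · refine Finset.sum_nonneg fun S _ => mul_nonneg ?_ (wn S)
    unfold on'; split_ifs <;> norm_num
  · refine Finset.sum_nonneg fun S _ => mul_nonneg ?_ (wn S)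
    unfold dp'; split_ifs <;> norm_num

/-- the case where `{e, f}` is a basis (rank two) -/
theorem case2 (hz : ∀ a, 0 ≤ z a) (hE : M.E = Set.univ) (hsp : M.Spanning {e, f})
    (hef : M.Indep {e, f}) (hne : e ≠ f) :
    s11 M z e f * s00 M z e f ≤ s10 M z e f * s01 M z e f := by
  have hE' : ∀ X : Set α, X ⊆ M.E := fun X => by rw [hE]; exact Set.subset_univ _
  have hinter : ∀ a, a ∈ M.closure ∅ ↔ a ∈ M.closure {e} ∧ a ∈ M.closure {f} :=
    fun a => cl_inter hE hef hne
  have hr : M.eRank = 2 := by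
    rw [← hsp.eRk_eq, hef.eRk_eq_encard, Set.encard_pair hne]
  have hall : ∀ a, a ∈ M.closure {e, f} := fun a => by
    rw [hsp.closure_eq, hE]; exact Set.mem_univ _
  have hlt : ∀ a : α, ({a} : Set α).encard < M.eRank := by
    intro a; rw [Set.encard_singleton, hr]; norm_num
  -- spanning criterion
  have span : ∀ x y : α, ({x, y} : Set α) = {e, f} → ∀ A : Finset α,
      (¬ ∀ a ∈ A, a ∈ M.closure {x}) → M.Spanning ((insert x A : Finset α) : Set α) := by
    intro x y hxy A hA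
    push Not at hA
    obtain ⟨a, haA, ha⟩ := hA
    have ha' : a ∈ M.closure (insert y {x}) := by
      have : (insert y ({x} : Set α)) = {e, f} := by rw [← hxy]; exact Set.pair_comm y x
      rw [this]; exact hall a
    have hy := (M.closure_exchange ⟨ha', ha⟩).1
    refine spanning_of_subset_closure hE hsp ?_
    rw [← hxy]
    intro w hw
    simp only [Set.mem_insert_iff, Set.mem_singleton_iff] at hw
    rcases hw with rfl | rfl
    · exact M.mem_closure_of_mem (by simp) (hE' _)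
    · refine M.closure_subset_closure ?_ hy
      intro v hv
      simp only [Set.mem_insert_iff, Set.mem_singleton_iff] at hv
      rcases hv with rfl | rfl
      · simp [haA]
      · simp
  have b11 : s11 M z e f ≤ ∑ Q ∈ (GG e f).powerset, (1 : ℝ) * wt z Q := by
    unfold s11
    refine Finset.sum_le_sum fun A _ => ?_
    split_ifs
    · rw [one_mul]
    · rw [one_mul]; exact wt_nonneg hz A
  have b10 : ∑ Q ∈ (GG e f).powerset, (1 : ℝ) * wt z Q
      - ∑ Q ∈ (GG e f).powerset, qi M e Q * wt z Q ≤ s10 M z e f := by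
    unfold s10
    rw [← Finset.sum_sub_distrib]
    refine Finset.sum_le_sum fun A _ => ?_
    have hw := wt_nonneg hz A
    by_cases hA : ∀ a ∈ A, a ∈ M.closure {e}
    · have : qi M e A = 1 := by unfold qi; rw [if_pos hA]
      rw [this]; split_ifs <;> linarith
    · rw [if_pos (span e f rfl A hA)]
      have : qi M e A = 0 := by unfold qi; rw [if_neg hA]
      rw [this]; linarith
  have b01 : ∑ Q ∈ (GG e f).powerset, (1 : ℝ) * wt z Q
      - ∑ Q ∈ (GG e f).powerset, qi M f Q * wt z Q ≤ s01 M z e f := by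
    unfold s01
    rw [← Finset.sum_sub_distrib]
    refine Finset.sum_le_sum fun A _ => ?_
    have hw := wt_nonneg hz A
    by_cases hA : ∀ a ∈ A, a ∈ M.closure {f}
    · have : qi M f A = 1 := by unfold qi; rw [if_pos hA]
      rw [this]; split_ifs <;> linarith
    · rw [if_pos (span f e (Set.pair_comm f e) A hA)]
      have : qi M f A = 0 := by unfold qi; rw [if_neg hA]
      rw [this]; linarith
  have b00 : s00 M z e f ≤ ∑ Q ∈ (GG e f).powerset, (1 : ℝ) * wt z Q
      - ∑ Q ∈ (GG e f).powerset, qi M e Q * wt z Q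
      - ∑ Q ∈ (GG e f).powerset, qi M f Q * wt z Q
      + ∑ Q ∈ (GG e f).powerset, q0 M Q * wt z Q
      - ∑ Q ∈ (GG e f).powerset, qq M e f Q * wt z Q := by
    unfold s00
    rw [← Finset.sum_sub_distrib, ← Finset.sum_sub_distrib, ← Finset.sum_add_distrib,
      ← Finset.sum_sub_distrib]
    refine Finset.sum_le_sum fun A _ => ?_
    have hw := wt_nonneg hz A
    have h0 : (∀ a ∈ A, a ∈ M.closure ∅) ↔
        (∀ a ∈ A, a ∈ M.closure {e}) ∧ (∀ a ∈ A, a ∈ M.closure {f}) := by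
      constructor
      · intro h
        exact ⟨fun a ha => ((hinter a).mp (h a ha)).1, fun a ha => ((hinter a).mp (h a ha)).2⟩
      · rintro ⟨h1, h2⟩ a ha
        exact (hinter a).mpr ⟨h1 a ha, h2 a ha⟩
    have h1 : isq M e f A → ¬ (∀ a ∈ A, a ∈ M.closure {e}) ∧ ¬ (∀ a ∈ A, a ∈ M.closure {f}) := by
      rintro ⟨q, hq, ⟨hqe, hqf⟩, _⟩
      exact ⟨fun h => hqe (h q hq), fun h => hqf (h q hq)⟩
    have hge : (0 : ℝ) ≤ 1 - qi M e A - qi M f A + q0 M A - qq M e f A := by
      have t : ∀ p1 p2 p3 p4 : Prop, (p3 ↔ p1 ∧ p2) → (p4 → ¬ p1 ∧ ¬ p2) →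
          (0 : ℝ) ≤ 1 - (if p1 then 1 else 0) - (if p2 then 1 else 0) + (if p3 then 1 else 0)
            - (if p4 then 1 else 0) := by
        intro p1 p2 p3 p4 ha hb
        by_cases a1 : p1 <;> by_cases a2 : p2 <;> by_cases a4 : p4 <;> simp_all
      have := t _ _ _ _ h0 h1
      unfold qi q0 qq
      convert this
    by_cases hs : M.Spanning (A : Set α)
    · rw [if_pos hs]
      have hne' : ∀ x : α, ¬ ∀ a ∈ A, a ∈ M.closure {x} := by
        intro x hx
        exact not_spanning_of_subset (Y := {x}) (fun a ha => hx a (Finset.mem_coe.mp ha)) (hlt x) hs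
      have hq : ¬ isq M e f A := by
        rintro ⟨q, hq, _, hq'⟩
        refine not_spanning_of_subset (Y := {q}) ?_ (hlt q) hs
        intro x hx
        by_cases hxq : x = q
        · rw [hxq]; exact M.mem_closure_of_mem (by simp) (hE' _)
        · exact M.closure_subset_closure (by simp) (hq' x (Finset.mem_coe.mp hx) hxq)
      have t1 : qi M e A = 0 := by unfold qi; rw [if_neg (hne' e)]
      have t2 : qi M f A = 0 := by unfold qi; rw [if_neg (hne' f)]
      have t3 : qq M e f A = 0 := by unfold qq; rw [if_neg hq]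
      have t4 : 0 ≤ q0 M A := by unfold q0; split_ifs <;> norm_num
      rw [t1, t2, t3]
      have := mul_nonneg t4 hw
      linarith
    · rw [if_neg hs]
      have := mul_nonneg hge hw
      linarith
  have b00' : 0 ≤ s00 M z e f := by
    unfold s00
    refine Finset.sum_nonneg fun A _ => ?_
    split_ifs
    · exact wt_nonneg hz A
    · exact le_refl _
  exact num2 b00' b00 b11 b10 b01 (sum_qi_nonneg hz _ _) (sum_qi_le hz _ _)
    (sum_qi_nonneg hz _ _) (sum_qi_le hz _ _) (X0Xl _ hinter) (Xq_ge hz _ hinter)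
    (prod_mul_one_sub_le z hz _)

end

end Pool.Agent.Y514.SC
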