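import Mathlib
import Pool.Agent.Y514.SC.Fin

set_option autoImplicit false

namespace Pool.Agent.Y514.SC

open Finset
open scoped Classical

section
variable {α : Type*} [Fintype α] {M : Matroid α} {z : α → ℝ} {e f : α}

theorem spanning_congr (hE : M.E = Set.univ) {X Y : Set α} (h : M.closure X = M.closure Y) :
    M.Spanning X ↔ M.Spanning Y := by
  rw [Matroid.spanning_iff_closure_eq (by rw [hE]; exact Set.subset_univ _),
    Matroid.spanning_iff_closure_eq (by rw [hE]; exact Set.subset_univ _), h]

theorem s_ineq (hz : ∀ a, 0 ≤ z a) (hE : M.E = Set.univ) (hr : M.eRank ≤ 3) (hne : e ≠ f) :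
    s11 M z e f * s00 M z e f ≤ s10 M z e f * s01 M z e f := by
  have hE' : ∀ X : Set α, X ⊆ M.E := fun X => by rw [hE]; exact Set.subset_univ _
  have h00 : 0 ≤ s00 M z e f := by
    unfold s00
    refine Finset.sum_nonneg fun A _ => ?_
    split_ifs
    · exact wt_nonneg hz A
    · exact le_refl _
  have h10 : 0 ≤ s10 M z e f := by
    unfold s10
    refine Finset.sum_nonneg fun A _ => ?_
    split_ifs
    · exact wt_nonneg hz A
    · exact le_refl _
  -- if `e` is in the closure of `∅`
  have loopcase : ∀ x : α, x ∈ M.closure ∅ → ∀ X : Finset α,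
      M.Spanning ((insert x X : Finset α) : Set α) ↔ M.Spanning (X : Set α) := by
    intro x hx X
    refine spanning_congr hE ?_
    rw [Finset.coe_insert]
    exact M.closure_insert_eq_of_mem_closure (M.closure_subset_closure (by simp) hx)
  by_cases he : e ∈ M.closure ∅
  · have a1 : s11 M z e f = s01 M z e f := by
      unfold s11 s01
      refine Finset.sum_congr rfl fun A _ => ?_
      simp only [loopcase e he]
    have a2 : s10 M z e f = s00 M z e f := by
      unfold s10 s00
      refine Finset.sum_congr rfl fun A _ => ?_
      simp only [loopcase e he]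
    rw [a1, a2, mul_comm]
  by_cases hf : f ∈ M.closure ∅
  · have a1 : s11 M z e f = s10 M z e f := by
      unfold s11 s10
      refine Finset.sum_congr rfl fun A _ => ?_
      simp only [Finset.insert_comm e f, loopcase f hf]
    have a2 : s01 M z e f = s00 M z e f := by
      unfold s01 s00
      refine Finset.sum_congr rfl fun A _ => ?_
      simp only [loopcase f hf]
    rw [a1, a2]
  have hei : M.Indep {e} := by
    have h0 : M.Indep (∅ : Set α) := M.empty_indep
    have := (h0.insert_indep_iff (e := e)).mpr (Or.inl ⟨by rw [hE]; exact Set.mem_univ _, he⟩)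
    simpa using this
  by_cases hef : M.Indep {e, f}
  · by_cases hsp : M.Spanning {e, f}
    · exact case2 hz hE hsp hef hne
    · refine case3 hz hE ?_ hef hne
      have h2 : ¬ M.eRank ≤ 2 := by
        intro h
        apply hsp
        have hb : M.IsBase {e, f} := by
          refine hef.isBase_of_eRk_ge (Set.toFinite _) ?_
          rw [hef.eRk_eq_encard, Set.encard_pair hne]
          exact h
        exact hb.spanning
      push Not at h2
      exact le_antisymm hr (by
        have : (3 : ℕ∞) = 2 + 1 := by norm_num
        rw [this]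
        exact Order.add_one_le_of_lt h2)
  · -- parallel elements
    have hfe : f ∈ M.closure {e} := by
      by_contra hcon
      apply hef
      have hpair : ({e, f} : Set α) = insert f {e} := Set.pair_comm e f
      rw [hpair, hei.insert_indep_iff]
      exact Or.inl ⟨by rw [hE]; exact Set.mem_univ _, hcon⟩
    have hef' : e ∈ M.closure {f} := by
      have h1 : f ∈ M.closure (insert e ∅) \ M.closure ∅ := by
        refine ⟨?_, hf⟩
        simpa using hfe
      have h2 := M.closure_insert_congr h1
      have h3 : M.closure {f} = M.closure {e} := by simpa using h2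
      rw [h3]
      exact M.mem_closure_of_mem (by simp) (hE' _)
    have a1 : s11 M z e f = s01 M z e f := by
      unfold s11 s01
      refine Finset.sum_congr rfl fun A _ => ?_
      have : M.Spanning ((insert e (insert f A) : Finset α) : Set α)
          ↔ M.Spanning ((insert f A : Finset α) : Set α) := by
        refine spanning_congr hE ?_
        rw [Finset.coe_insert]
        exact M.closure_insert_eq_of_mem_closure (M.closure_subset_closure (by simp) hef')
      simp only [this]
    have a2 : s00 M z e f ≤ s10 M z e f := by
      unfold s00 s10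
      refine Finset.sum_le_sum fun A _ => ?_
      have hw := wt_nonneg hz A
      by_cases hs : M.Spanning (A : Set α)
      · have hs' : M.Spanning ((insert e A : Finset α) : Set α) :=
          hs.superset (by simp) (hE' _)
        rw [if_pos hs, if_pos hs']
      · rw [if_neg hs]; split_ifs
        · exact hw
        · exact le_refl _
    have h01 : 0 ≤ s01 M z e f := by
      unfold s01
      refine Finset.sum_nonneg fun A _ => ?_
      split_ifs
      · exact wt_nonneg hz A
      · exact le_refl _
    rw [a1, mul_comm (s10 M z e f)]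
    exact mul_le_mul_of_nonneg_left a2 h01

theorem sum_four (hne : e ≠ f) (h : Finset α → ℝ) :
    ∑ A : Finset α, h A = ∑ A ∈ (GG e f).powerset,
      (h A + h (insert f A) + (h (insert e A) + h (insert e (insert f A)))) := by
  have hf : f ∉ GG e f := by unfold GG; simp
  have he : e ∉ insert f (GG e f) := by
    unfold GG; simp [hne]
  have hu : (Finset.univ : Finset (Finset α)) = (insert e (insert f (GG e f))).powerset := by
    have : insert e (insert f (GG e f)) = (Finset.univ : Finset α) := by
      ext x; unfold GG; simp only [Finset.mem_insert, Finset.mem_erase, Finset.mem_univ]; tauto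
    rw [this, Finset.powerset_univ]
  rw [hu, Finset.sum_powerset_insert he, Finset.sum_powerset_insert hf,
    Finset.sum_powerset_insert hf, ← Finset.sum_add_distrib, ← Finset.sum_add_distrib,
    ← Finset.sum_add_distrib]

/-- **Every matroid of rank at most three is spanning-correlated.** -/
theorem spanning_correlated_of_rank_le_three (hz : ∀ a, 0 ≤ z a) (hE : M.E = Set.univ)
    (hr : M.eRank ≤ 3) (hne : e ≠ f) :
    (∑ A : Finset α, if M.Spanning (A : Set α) ∧ e ∈ A ∧ f ∈ A then ∏ a ∈ A, z a else 0) *
      (∑ A : Finset α, if M.Spanning (A : Set α) then ∏ a ∈ A, z a else 0) ≤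
    (∑ A : Finset α, if M.Spanning (A : Set α) ∧ e ∈ A then ∏ a ∈ A, z a else 0) *
      (∑ A : Finset α, if M.Spanning (A : Set α) ∧ f ∈ A then ∏ a ∈ A, z a else 0) := by
  have key := s_ineq (M := M) (z := z) hz hE hr hne
  have hG : ∀ A ∈ (GG e f).powerset, e ∉ A ∧ f ∉ A := by
    intro A hA
    have hA' := Finset.mem_powerset.mp hA
    constructor
    · intro h; have := hA' h; unfold GG at this; simp at this
    · intro h; have := hA' h; unfold GG at this; simp at this
  have w1 : ∀ A ∈ (GG e f).powerset, ∏ a ∈ insert f A, z a = z f * wt z A := by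
    intro A hA; rw [Finset.prod_insert (hG A hA).2]; rfl
  have w2 : ∀ A ∈ (GG e f).powerset, ∏ a ∈ insert e A, z a = z e * wt z A := by
    intro A hA; rw [Finset.prod_insert (hG A hA).1]; rfl
  have w3 : ∀ A ∈ (GG e f).powerset, ∏ a ∈ insert e (insert f A), z a = z e * z f * wt z A := by
    intro A hA
    have : e ∉ insert f A := by
      simp only [Finset.mem_insert, not_or]; exact ⟨hne, (hG A hA).1⟩
    rw [Finset.prod_insert this, w1 A hA]; ring
  have t11 : (∑ A : Finset α, if M.Spanning (A : Set α) ∧ e ∈ A ∧ f ∈ A then ∏ a ∈ A, z a else 0)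
      = z e * z f * s11 M z e f := by
    rw [sum_four hne]
    unfold s11
    rw [Finset.mul_sum]
    refine Finset.sum_congr rfl fun A hA => ?_
    obtain ⟨he, hf⟩ := hG A hA
    rw [w1 A hA, w2 A hA, w3 A hA]
    simp [he, hf, hne, hne.symm]
  have t10 : (∑ A : Finset α, if M.Spanning (A : Set α) ∧ e ∈ A then ∏ a ∈ A, z a else 0)
      = z e * s10 M z e f + z e * z f * s11 M z e f := by
    rw [sum_four hne]
    unfold s10 s11
    rw [Finset.mul_sum, Finset.mul_sum, ← Finset.sum_add_distrib]
    refine Finset.sum_congr rfl fun A hA => ?_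
    obtain ⟨he, hf⟩ := hG A hA
    rw [w1 A hA, w2 A hA, w3 A hA]
    simp [he, hf, hne, hne.symm]
  have t01 : (∑ A : Finset α, if M.Spanning (A : Set α) ∧ f ∈ A then ∏ a ∈ A, z a else 0)
      = z f * s01 M z e f + z e * z f * s11 M z e f := by
    rw [sum_four hne]
    unfold s01 s11
    rw [Finset.mul_sum, Finset.mul_sum, ← Finset.sum_add_distrib]
    refine Finset.sum_congr rfl fun A hA => ?_
    obtain ⟨he, hf⟩ := hG A hA
    rw [w1 A hA, w2 A hA, w3 A hA]
    simp [he, hf, hne, hne.symm]
  have t00 : (∑ A : Finset α, if M.Spanning (A : Set α) then ∏ a ∈ A, z a else 0)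
      = s00 M z e f + z f * s01 M z e f + (z e * s10 M z e f + z e * z f * s11 M z e f) := by
    rw [sum_four hne]
    unfold s00 s01 s10 s11
    rw [Finset.mul_sum, Finset.mul_sum, Finset.mul_sum, ← Finset.sum_add_distrib,
      ← Finset.sum_add_distrib, ← Finset.sum_add_distrib]
    refine Finset.sum_congr rfl fun A hA => ?_
    rw [w1 A hA, w2 A hA, w3 A hA]
    simp only [mul_ite, mul_zero]
    rfl
  rw [t11, t10, t01, t00]
  have hef : 0 ≤ z e * z f := mul_nonneg (hz e) (hz f)
  have := mul_le_mul_of_nonneg_left key hef
  nlinarith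

end

end Pool.Agent.Y514.SC
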