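import Mathlib
import Pool.Agent.Y514.SC.Rank3

set_option autoImplicit false

namespace Pool.Agent.Y514.SC

open Finset
open scoped Classical

section
variable {α : Type*} [Fintype α] {M : Matroid α} {z : α → ℝ} {e f : α}

theorem indep_iff_dual_spanning (hE : M.E = Set.univ) (A : Finset α) :
    M.Indep (A : Set α) ↔ M✶.Spanning ((Aᶜ : Finset α) : Set α) := by
  have h1 : M✶.Coindep (A : Set α) ↔ M✶.Spanning (M✶.E \ (A : Set α)) :=
    Matroid.coindep_iff_compl_spanning (by rw [Matroid.dual_ground, hE]; exact Set.subset_univ _)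
  rw [Matroid.coindep_def, Matroid.dual_dual, Matroid.dual_ground, hE] at h1
  rw [h1, Finset.coe_compl, Set.compl_eq_univ_sdiff]

theorem prod_compl (hz : ∀ a, 0 < z a) (A : Finset α) :
    ∏ a ∈ Aᶜ, z a = (∏ a, z a) * ∏ a ∈ A, (z a)⁻¹ := by
  rw [Finset.prod_inv_distrib]
  have hA : ∏ a ∈ A, z a ≠ 0 := (Finset.prod_pos fun a _ => hz a).ne'
  rw [← Finset.prod_mul_prod_compl A z]
  field_simp

/-- **Every matroid of corank at most three is independence-correlated.** -/
theorem independence_correlated_of_corank_le_three (hz : ∀ a, 0 < z a) (hE : M.E = Set.univ)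
    (hr : M✶.eRank ≤ 3) (hne : e ≠ f) :
    (∑ A : Finset α, if M.Indep (A : Set α) ∧ e ∈ A ∧ f ∈ A then ∏ a ∈ A, z a else 0) *
      (∑ A : Finset α, if M.Indep (A : Set α) then ∏ a ∈ A, z a else 0) ≤
    (∑ A : Finset α, if M.Indep (A : Set α) ∧ e ∈ A then ∏ a ∈ A, z a else 0) *
      (∑ A : Finset α, if M.Indep (A : Set α) ∧ f ∈ A then ∏ a ∈ A, z a else 0) := by
  set y : α → ℝ := fun a => (z a)⁻¹ with hy
  have hy0 : ∀ a, 0 ≤ y a := fun a => (inv_pos.mpr (hz a)).le
  set P : ℝ := ∏ a, z a with hP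
  have hPpos : 0 < P := Finset.prod_pos fun a _ => hz a
  have hdual := spanning_correlated_of_rank_le_three (M := M✶) (z := y) (e := e) (f := f) hy0
    (by rw [Matroid.dual_ground, hE]) hr hne
  set s : ℝ := ∑ A : Finset α, if M✶.Spanning (A : Set α) then ∏ a ∈ A, y a else 0 with hs
  set se : ℝ := ∑ A : Finset α, if M✶.Spanning (A : Set α) ∧ e ∈ A then ∏ a ∈ A, y a else 0
    with hse
  set sf : ℝ := ∑ A : Finset α, if M✶.Spanning (A : Set α) ∧ f ∈ A then ∏ a ∈ A, y a else 0
    with hsf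
  set sef : ℝ := ∑ A : Finset α, if M✶.Spanning (A : Set α) ∧ e ∈ A ∧ f ∈ A
    then ∏ a ∈ A, y a else 0 with hsef
  have pc : ∀ A : Finset α, ∏ a ∈ Aᶜ, z a = P * ∏ a ∈ A, y a := fun A => prod_compl hz A
  -- complementation
  have hc : ∀ g : Finset α → ℝ, ∑ A : Finset α, g A = ∑ A : Finset α, g Aᶜ := by
    intro g
    exact (Equiv.sum_comp (Equiv.ofBijective (fun A : Finset α => Aᶜ) compl_bijective) g).symm
  have t0 : (∑ A : Finset α, if M.Indep (A : Set α) then ∏ a ∈ A, z a else 0) = P * s := by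
    rw [hc, hs, Finset.mul_sum]
    refine Finset.sum_congr rfl fun A _ => ?_
    rw [pc A]
    simp only [indep_iff_dual_spanning hE, compl_compl, mul_ite, mul_zero]
  have te : (∑ A : Finset α, if M.Indep (A : Set α) ∧ e ∈ A then ∏ a ∈ A, z a else 0)
      = P * (s - se) := by
    rw [hc, hs, hse, ← Finset.sum_sub_distrib, Finset.mul_sum]
    refine Finset.sum_congr rfl fun A _ => ?_
    rw [pc A]
    simp only [indep_iff_dual_spanning hE, compl_compl, Finset.mem_compl]
    by_cases h1 : M✶.Spanning (A : Set α) <;> by_cases h2 : e ∈ A <;> simp [h1, h2]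
  have tf : (∑ A : Finset α, if M.Indep (A : Set α) ∧ f ∈ A then ∏ a ∈ A, z a else 0)
      = P * (s - sf) := by
    rw [hc, hs, hsf, ← Finset.sum_sub_distrib, Finset.mul_sum]
    refine Finset.sum_congr rfl fun A _ => ?_
    rw [pc A]
    simp only [indep_iff_dual_spanning hE, compl_compl, Finset.mem_compl]
    by_cases h1 : M✶.Spanning (A : Set α) <;> by_cases h2 : f ∈ A <;> simp [h1, h2]
  have tef : (∑ A : Finset α, if M.Indep (A : Set α) ∧ e ∈ A ∧ f ∈ A then ∏ a ∈ A, z a else 0)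
      = P * (s - se - sf + sef) := by
    rw [hc, hs, hse, hsf, hsef, ← Finset.sum_sub_distrib, ← Finset.sum_sub_distrib,
      ← Finset.sum_add_distrib, Finset.mul_sum]
    refine Finset.sum_congr rfl fun A _ => ?_
    rw [pc A]
    simp only [indep_iff_dual_spanning hE, compl_compl, Finset.mem_compl]
    by_cases h1 : M✶.Spanning (A : Set α) <;> by_cases h2 : e ∈ A <;> by_cases h3 : f ∈ A <;>
      simp [h1, h2, h3]
  rw [t0, te, tf, tef]
  have h2 : 0 ≤ P * P * (se * sf - sef * s) :=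
    mul_nonneg (mul_nonneg hPpos.le hPpos.le) (by linarith)
  nlinarith

end

end Pool.Agent.Y514.SC
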